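import Pool.Agent.CPT.P.Algo

/-!
# Correctness of the algorithm
-/

set_option autoImplicit false

namespace Pool.Agent.CPT.P

open Finset Classical
open Pool.Agent.PebAlg (side adj deg code side_code adj_code)

section rel

variable {n : ℕ}

/-- the set of the entries of a list -/
noncomputable def toFS (l : List ℕ) : Finset (Fin n) := univ.filter (fun i => i.val ∈ l)

lemma mem_toFS {l : List ℕ} {i : Fin n} : i ∈ toFS l ↔ i.val ∈ l := by simp [toFS]

lemma toFS_append (l l' : List ℕ) : (toFS (l ++ l') : Finset (Fin n)) = toFS l ∪ toFS l' := by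
  ext i
  simp [mem_toFS]

lemma card_toFS (l : List ℕ) : (toFS l : Finset (Fin n)).card ≤ l.length := by
  calc (toFS l : Finset (Fin n)).card = ((toFS l : Finset (Fin n)).image Fin.val).card :=
        (card_image_of_injective _ Fin.val_injective).symm
    _ ≤ l.toFinset.card := by
        refine card_le_card ?_
        intro x hx
        rw [mem_image] at hx
        obtain ⟨i, hi, rfl⟩ := hx
        rw [List.mem_toFinset]
        exact mem_toFS.1 hi
    _ ≤ l.length := List.toFinset_card_le _

lemma exists_list (S : Finset (Fin n)) :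
    ∃ l : List ℕ, l.length = S.card ∧ (∀ x ∈ l, x < n) ∧ toFS l = S := by
  refine ⟨S.toList.map Fin.val, by simp, ?_, ?_⟩
  · intro x hx
    rw [List.mem_map] at hx
    obtain ⟨i, -, rfl⟩ := hx
    exact i.isLt
  · ext i
    rw [mem_toFS, List.mem_map]
    constructor
    · rintro ⟨j, hj, hij⟩
      rw [← Fin.val_injective hij]
      exact Finset.mem_toList.1 hj
    · intro hi
      exact ⟨i, Finset.mem_toList.2 hi, rfl⟩

lemma memB_iff (l : List ℕ) (x : ℕ) : memB l x = true ↔ x ∈ l := by
  unfold memB
  rw [List.any_eq_true]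
  constructor
  · rintro ⟨y, hy, h⟩
    rw [decide_eq_true_eq] at h
    rwa [← h]
  · intro h
    exact ⟨x, h, by simp⟩

lemma length_filter_range (P : ℕ → Bool) (P' : Fin n → Prop) (h : ∀ i : Fin n, P i.val = true ↔ P' i) :
    ((List.range n).filter P).length = (univ.filter P').card := by
  have h1 : List.range n = (List.finRange n).map Fin.val := by
    rw [List.map_coe_finRange_eq_range]
  rw [h1, List.filter_map, List.length_map]
  rw [← List.toFinset_card_of_nodup ((List.nodup_finRange n).filter _)]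
  congr 1
  ext u
  simp [h]

lemma m4_eq (c : ℕ) : m4 c = c % 4 := by
  unfold m4
  omega

variable {Bad Dif : Fin n → Fin n → Prop} {R Q : ℕ → ℕ → Bool}

lemma cntB_eq (hQ : ∀ i j : Fin n, Q i j = true ↔ Dif i j) (l : List ℕ) :
    cntB n Q l = cnt Dif (toFS l) := by
  unfold cntB cnt
  have h1 : ∀ f : ℕ → ℕ, ((List.range n).map f).sum = ∑ i : Fin n, f i := by
    intro f
    rw [← Finset.sum_range (fun i => f i)]
    rfl
  rw [h1]
  rw [Finset.card_filter, Finset.sum_product]
  rw [← Finset.sum_subset (Finset.subset_univ (toFS l))]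
  · refine Finset.sum_congr rfl ?_
    intro x hx
    rw [length_filter_range _ (fun y => y ∈ toFS l ∧ Dif x y), ← Finset.card_filter]
    · congr 1
      ext y
      simp
    · intro y
      rw [Bool.and_eq_true, Bool.and_eq_true, memB_iff, memB_iff, hQ, mem_toFS]
      have := mem_toFS.1 hx
      tauto
  · intro x _ hx
    rw [length_filter_range _ (fun _ => False)]
    · simp
    · intro y
      rw [Bool.and_eq_true, memB_iff]
      rw [mem_toFS] at hx
      tauto

lemma indB_iff (hR : ∀ i j : Fin n, R i j = true ↔ Bad i j) {l : List ℕ} (hl : ∀ x ∈ l, x < n) :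
    indB R l = true ↔ Ind Bad (toFS l) := by
  unfold indB Ind
  rw [List.all_eq_true]
  constructor
  · intro h x hx y hy hb
    have h1 := h x (mem_toFS.1 hx)
    rw [List.all_eq_true] at h1
    have h2 := h1 y (mem_toFS.1 hy)
    rw [(hR x y).2 hb] at h2
    simp at h2
  · intro h x hx
    rw [List.all_eq_true]
    intro y hy
    have h1 := h ⟨x, hl x hx⟩ (mem_toFS.2 hx) ⟨y, hl y hy⟩ (mem_toFS.2 hy)
    rw [← hR] at h1
    simpa using h1

lemma domB_iff (hR : ∀ i j : Fin n, R i j = true ↔ Bad i j) {l : List ℕ} (hl : ∀ x ∈ l, x < n)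
    (z : Fin n) : domB R l z = true ↔ Dom Bad (toFS l) z := by
  unfold domB Dom
  rw [Bool.or_eq_true, memB_iff, mem_toFS, List.any_eq_true]
  refine or_congr Iff.rfl ?_
  constructor
  · rintro ⟨y, hy, h⟩
    exact ⟨⟨y, hl y hy⟩, mem_toFS.2 hy, (hR z ⟨y, hl y hy⟩).1 h⟩
  · rintro ⟨y, hy, h⟩
    exact ⟨y, mem_toFS.1 hy, (hR z y).2 h⟩

lemma nrB_iff (hR : ∀ i j : Fin n, R i j = true ↔ Bad i j)
    (hQ : ∀ i j : Fin n, Q i j = true ↔ Dif i j) (x y : Fin n) :
    nrB R Q x y = true ↔ Nr Bad Dif x y := by
  unfold nrB Nr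
  rw [Bool.or_eq_true, Bool.or_eq_true, hR, hQ, decide_eq_true_eq, Fin.val_inj]

lemma allL_iff (k : ℕ) : ∀ (P : List ℕ → Bool), allL n k P = true ↔
    ∀ l : List ℕ, l.length ≤ k → (∀ x ∈ l, x < n) → P l = true := by
  induction k with
  | zero =>
    intro P
    constructor
    · intro h l hl _
      have : l = [] := List.length_eq_zero_iff.1 (Nat.le_zero.1 hl)
      rw [this]
      exact h
    · intro h
      exact h [] (by simp) (by simp)
  | succ k ih =>
    intro P
    show (allL n k P && (List.range n).all (fun x => allL n k (fun l => P (x :: l)))) = true ↔ _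
    rw [Bool.and_eq_true, ih, List.all_eq_true]
    constructor
    · rintro ⟨h1, h2⟩ l hl hx
      cases l with
      | nil => exact h1 [] (by simp) (by simp)
      | cons x l =>
        have h3 := (ih _).1 (h2 x (List.mem_range.2 (hx x (by simp)))) l
          (by simpa using hl) (fun y hy => hx y (by simp [hy]))
        exact h3
    · intro h
      refine ⟨fun l hl hx => h l (by omega) hx, ?_⟩
      intro x hx
      rw [ih]
      intro l hl hy
      refine h (x :: l) (by simpa using hl) ?_
      intro z hz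
      rcases List.mem_cons.1 hz with rfl | hz
      · exact List.mem_range.1 hx
      · exact hy z hz

lemma chkB_iff (hR : ∀ i j : Fin n, R i j = true ↔ Bad i j)
    (hQ : ∀ i j : Fin n, Q i j = true ↔ Dif i j) {C O T : List ℕ} (hC : ∀ x ∈ C, x < n)
    (hO : ∀ x ∈ O, x < n) (hT : ∀ x ∈ T, x < n) :
    chkB n R Q C O T = true ↔ (Ind Bad (toFS C ∪ toFS O) → Ind Bad (toFS C ∪ toFS T) →
      (∀ q ∈ toFS O ∪ toFS T, ∀ y z, Nr Bad Dif q y → Nr Bad Dif y z →
        Dom Bad (toFS C ∪ toFS O) z ∧ Dom Bad (toFS C ∪ toFS T) z) →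
      cnt Dif (toFS C ∪ toFS O) % 4 = cnt Dif (toFS C ∪ toFS T) % 4) := by
  have hA : ∀ x ∈ C ++ O, x < n := by
    intro x hx
    rcases List.mem_append.1 hx with h | h
    · exact hC x h
    · exact hO x h
  have hB : ∀ x ∈ C ++ T, x < n := by
    intro x hx
    rcases List.mem_append.1 hx with h | h
    · exact hC x h
    · exact hT x h
  have hE : ∀ x ∈ O ++ T, x < n := by
    intro x hx
    rcases List.mem_append.1 hx with h | h
    · exact hO x h
    · exact hT x h
  have e1 := indB_iff hR hA
  have e2 := indB_iff hR hB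
  have e3 : (O ++ T).all (fun q => (List.range n).all (fun y => (List.range n).all (fun z =>
      !(nrB R Q q y) || (!(nrB R Q y z) || (domB R (C ++ O) z && domB R (C ++ T) z))))) = true ↔
      (∀ q ∈ toFS O ∪ toFS T, ∀ y z, Nr Bad Dif q y → Nr Bad Dif y z →
        Dom Bad (toFS C ∪ toFS O) z ∧ Dom Bad (toFS C ∪ toFS T) z) := by
    rw [List.all_eq_true]
    constructor
    · intro h q hq y z hqy hyz
      rw [← toFS_append] at hq
      have h1 := h q (mem_toFS.1 hq)
      rw [List.all_eq_true] at h1
      have h2 := h1 y (List.mem_range.2 y.isLt)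
      rw [List.all_eq_true] at h2
      have h3 := h2 z (List.mem_range.2 z.isLt)
      rw [(nrB_iff hR hQ q y).2 hqy, (nrB_iff hR hQ y z).2 hyz] at h3
      simp only [Bool.not_true, Bool.false_or, Bool.and_eq_true] at h3
      rw [← toFS_append, ← toFS_append, ← domB_iff hR hA, ← domB_iff hR hB]
      exact h3
    · intro h q hq
      rw [List.all_eq_true]
      intro y hy
      rw [List.all_eq_true]
      intro z hz
      rw [List.mem_range] at hy hz
      have h1 := h ⟨q, hE q hq⟩ (by rw [← toFS_append]; exact mem_toFS.2 hq) ⟨y, hy⟩ ⟨z, hz⟩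
      rw [← nrB_iff hR hQ, ← nrB_iff hR hQ, ← toFS_append, ← toFS_append, ← domB_iff hR hA,
        ← domB_iff hR hB] at h1
      dsimp only at h1
      cases h2 : nrB R Q q y
      · simp
      · cases h3 : nrB R Q y z
        · simp
        · have h4 := h1 h2 h3
          rw [h4.1, h4.2]
          rfl
  unfold chkB
  rw [Bool.or_eq_true, Bool.or_eq_true, Bool.or_eq_true, Bool.not_eq_true', Bool.not_eq_true',
    Bool.not_eq_true', ← Bool.not_eq_true, ← Bool.not_eq_true, ← Bool.not_eq_true, e3,
    decide_eq_true_eq, m4_eq, m4_eq, cntB_eq hQ, cntB_eq hQ, e1, e2, toFS_append, toFS_append]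
  tauto

lemma locB_iff (hR : ∀ i j : Fin n, R i j = true ↔ Bad i j)
    (hQ : ∀ i j : Fin n, Q i j = true ↔ Dif i j) (M : ℕ) :
    locB n R Q M = true ↔ Loc Bad Dif M := by
  have inst_eq : (fun a b : Fin n => propDecidable (a = b)) = instDecidableEqFin n :=
    Subsingleton.elim _ _
  unfold locB Loc
  rw [allL_iff, inst_eq]
  constructor
  · intro h C O T hC hO hT h1 h2 h3
    obtain ⟨c, lc, hc, rfl⟩ := exists_list C
    obtain ⟨o, lo, ho, rfl⟩ := exists_list O
    obtain ⟨t, lt, ht, rfl⟩ := exists_list T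
    have h4 := h c (by omega) hc
    rw [allL_iff] at h4
    have h5 := h4 o (by omega) ho
    rw [allL_iff] at h5
    have h6 := h5 t (by omega) ht
    exact (chkB_iff hR hQ hc ho ht).1 h6 h1 h2 h3
  · intro h c lc hc
    rw [allL_iff]
    intro o lo ho
    rw [allL_iff]
    intro t lt ht
    rw [chkB_iff hR hQ hc ho ht]
    exact h (toFS c) (toFS o) (toFS t) ((card_toFS c).trans lc) ((card_toFS o).trans lo)
      ((card_toFS t).trans lt)

lemma degB_iff (hR : ∀ i j : Fin n, R i j = true ↔ Bad i j)
    (hQ : ∀ i j : Fin n, Q i j = true ↔ Dif i j) (D : ℕ) :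
    degB n R Q D = true ↔ Deg Bad Dif D := by
  unfold degB Deg
  rw [List.all_eq_true]
  constructor
  · intro h x
    have h1 := h x (List.mem_range.2 x.isLt)
    rw [decide_eq_true_eq, length_filter_range _ (fun y => Nr Bad Dif x y)
      (fun y => nrB_iff hR hQ x y)] at h1
    exact h1
  · intro h x hx
    rw [List.mem_range] at hx
    rw [decide_eq_true_eq, length_filter_range _ (fun y => Nr Bad Dif ⟨x, hx⟩ y)
      (fun y => nrB_iff hR hQ ⟨x, hx⟩ y)]
    exact h ⟨x, hx⟩

lemma greedy_spec (hR : ∀ i j : Fin n, R i j = true ↔ Bad i j) (hs : ∀ x y, Bad x y → Bad y x)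
    (hi : ∀ x, ¬ Bad x x) : MInd Bad (toFS (greedy n R)) ∧ (∀ x ∈ greedy n R, x < n) ∧
      (greedy n R).Nodup := by
  -- invariant of the fold
  have key : ∀ k, k ≤ n → ∀ l, l = (List.range k).foldl
      (fun acc x => bif acc.any (R x) then acc else x :: acc) [] →
      ((∀ x ∈ l, x < k) ∧ l.Nodup) ∧ (∀ x y : Fin n, x.val ∈ l → y.val ∈ l → ¬ Bad x y) ∧
      ∀ x : Fin n, x.val < k → x.val ∈ l ∨ ∃ y : Fin n, y.val ∈ l ∧ Bad x y := by
    intro k
    induction k with
    | zero =>
      intro _ l hl
      rw [hl]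
      simp
    | succ k ih =>
      intro hk l hl
      rw [List.range_succ, List.foldl_append] at hl
      obtain ⟨⟨h1, h0⟩, h2, h3⟩ := ih (by omega) _ rfl
      set l' := (List.range k).foldl
        (fun acc x => bif acc.any (R x) then acc else x :: acc) [] with hl'
      simp only [List.foldl_cons, List.foldl_nil] at hl
      have hkn : k < n := by omega
      cases hb : l'.any (R k) with
      | true =>
        rw [hb] at hl
        simp only [cond_true] at hl
        rw [hl]
        refine ⟨⟨fun x hx => by have := h1 x hx; omega, h0⟩, h2, ?_⟩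
        intro x hx
        by_cases hxk : x.val < k
        · exact h3 x hxk
        · have hxk' : x.val = k := by omega
          right
          rw [List.any_eq_true] at hb
          obtain ⟨y, hy, hb⟩ := hb
          have hyn : y < n := by have := h1 y hy; omega
          refine ⟨⟨y, hyn⟩, hy, ?_⟩
          rw [← hR]
          rw [hxk']
          exact hb
      | false =>
        rw [hb] at hl
        simp only [cond_false] at hl
        rw [hl]
        have hb' : ∀ y : Fin n, y.val ∈ l' → ¬ Bad ⟨k, hkn⟩ y := by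
          intro y hy hbd
          rw [← hR] at hbd
          have : l'.any (R k) = true := List.any_eq_true.2 ⟨y, hy, hbd⟩
          rw [hb] at this
          exact absurd this (by simp)
        refine ⟨⟨?_, ?_⟩, ?_, ?_⟩
        · intro x hx
          rcases List.mem_cons.1 hx with rfl | hx
          · omega
          · have := h1 x hx
            omega
        · rw [List.nodup_cons]
          refine ⟨fun hk' => ?_, h0⟩
          have := h1 k hk'
          omega
        · intro x y hx hy
          rcases List.mem_cons.1 hx with hx | hx <;> rcases List.mem_cons.1 hy with hy | hy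
          · have : x = y := Fin.ext (hx.trans hy.symm)
            rw [this]
            exact hi y
          · have : x = ⟨k, hkn⟩ := Fin.ext hx
            rw [this]
            exact hb' y hy
          · have : y = ⟨k, hkn⟩ := Fin.ext hy
            rw [this]
            exact fun h => hb' x hx (hs _ _ h)
          · exact h2 x y hx hy
        · intro x hx
          by_cases hxk : x.val < k
          · rcases h3 x hxk with h | ⟨y, hy, h⟩
            · exact Or.inl (List.mem_cons_of_mem _ h)
            · exact Or.inr ⟨y, List.mem_cons_of_mem _ hy, h⟩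
          · have hxk' : x.val = k := by omega
            left
            rw [hxk']
            exact List.mem_cons_self
  obtain ⟨⟨h1, h0⟩, h2, h3⟩ := key n le_rfl (greedy n R) rfl
  refine ⟨⟨?_, ?_⟩, h1, h0⟩
  · intro x hx y hy
    exact h2 x y (mem_toFS.1 hx) (mem_toFS.1 hy)
  · intro x
    rcases h3 x x.isLt with h | ⟨y, hy, h⟩
    · exact Or.inl (mem_toFS.2 h)
    · exact Or.inr ⟨y, mem_toFS.2 hy, h⟩

theorem lqB_iff (hR : ∀ i j : Fin n, R i j = true ↔ Bad i j)
    (hQ : ∀ i j : Fin n, Q i j = true ↔ Dif i j) (hs : ∀ x y, Bad x y → Bad y x)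
    (hi : ∀ x, ¬ Bad x x) (hsD : ∀ x y, Dif x y → Dif y x) {D M : ℕ} (hM : bdM D ≤ M) :
    lqB n R Q D M = true ↔ Lq Bad Dif D M := by
  have hg := (greedy_spec hR hs hi).1
  unfold lqB Lq
  rw [Bool.and_eq_true, Bool.and_eq_true, degB_iff hR hQ, locB_iff hR hQ, decide_eq_true_eq, m4_eq,
    cntB_eq hQ]
  constructor
  · rintro ⟨h1, h2, h3⟩
    exact ⟨h1, h2, _, hg, h3⟩
  · rintro ⟨h1, h2, S, hS, h3⟩
    refine ⟨h1, h2, ?_⟩
    rw [← h3]
    exact exch hs hi hsD h1 h2 hM _ _ _ hg hS rfl

end rel

/-! ### Graphs -/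

section graph

variable {n : ℕ} (G : SimpleGraph (Fin n))

/-- the adjacency matrix of a graph, row by row -/
noncomputable def gcode : List Bool := code (fun i j => decide (G.Adj i j))

lemma side_gcode : side (gcode G) = n := side_code _

lemma adj_gcode (i j : Fin n) : adj (gcode G) i j = true ↔ G.Adj i j := by
  unfold gcode
  rw [adj_code, decide_eq_true_iff]

lemma deg_gcode (v : Fin n) : deg (gcode G) v = dg G v := by
  unfold gcode dg
  rw [Pool.Agent.PebAlg.deg_code]
  congr 1
  ext u
  simp only [decide_eq_true_eq, mem_filter, mem_univ, true_and]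
  exact G.adj_comm u v

lemma bdB_gcode (i j : Fin n) : bdB (gcode G) i j = true ↔ bd G i j := by
  unfold bdB bd
  rw [Bool.and_eq_true, Bool.and_eq_true, decide_eq_true_eq, decide_eq_true_eq, deg_gcode,
    deg_gcode, adj_gcode]

lemma dfB_gcode (i j : Fin n) : dfB (gcode G) i j = true ↔ df G i j := by
  unfold dfB df
  rw [Bool.and_eq_true, Bool.and_eq_true, Bool.and_eq_true, decide_eq_true_eq, decide_eq_true_eq,
    deg_gcode, deg_gcode, side_gcode, Bool.not_eq_true', decide_eq_false_iff_not, Fin.val_inj,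
    List.any_eq_true]
  refine and_congr Iff.rfl (and_congr Iff.rfl (and_congr Iff.rfl ?_))
  constructor
  · rintro ⟨m, hm, h⟩
    rw [List.mem_range] at hm
    rw [Bool.and_eq_true, Bool.and_eq_true, decide_eq_true_eq] at h
    have e1 := deg_gcode G ⟨m, hm⟩
    have e2 := adj_gcode G ⟨m, hm⟩ i
    have e3 := adj_gcode G ⟨m, hm⟩ j
    exact ⟨⟨m, hm⟩, by rw [← e1]; exact h.1, e2.1 h.2.1, e3.1 h.2.2⟩
  · rintro ⟨m, h1, h2, h3⟩
    refine ⟨m, List.mem_range.2 m.isLt, ?_⟩
    rw [Bool.and_eq_true, Bool.and_eq_true, decide_eq_true_eq, deg_gcode, adj_gcode, adj_gcode]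
    exact ⟨h1, h2, h3⟩

lemma bd_symm {W : Type} [Fintype W] {G : SimpleGraph W} (x y : W) (h : bd G x y) : bd G y x :=
  ⟨h.2.1, h.1, h.2.2.symm⟩

lemma bd_irrefl {W : Type} [Fintype W] {G : SimpleGraph W} (x : W) : ¬ bd G x x :=
  fun h => G.loopless.irrefl x h.2.2

lemma df_symm {W : Type} [Fintype W] {G : SimpleGraph W} (x y : W) (h : df G x y) : df G y x := by
  obtain ⟨h1, h2, h3, m, h4, h5, h6⟩ := h
  exact ⟨h2, h1, h3.symm, m, h4, h6, h5⟩

theorem algo_iff {E D M : ℕ} (hM : bdM D ≤ M) :
    algo E D M (gcode G) = [true] ↔ LQ E D M (Fin n) G := by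
  rw [lQ_iff]
  unfold algo LG
  rw [side_gcode, List.cons.injEq, Bool.and_eq_true]
  rw [lqB_iff (bdB_gcode G) (dfB_gcode G) bd_symm bd_irrefl df_symm hM, List.all_eq_true]
  constructor
  · rintro ⟨⟨h1, h2⟩, -⟩
    refine ⟨fun v => ?_, h2⟩
    have h3 := h1 v (List.mem_range.2 v.isLt)
    rwa [decide_eq_true_eq, deg_gcode] at h3
  · rintro ⟨h1, h2⟩
    refine ⟨⟨fun v hv => ?_, h2⟩, rfl⟩
    rw [List.mem_range] at hv
    have e1 := deg_gcode G ⟨v, hv⟩
    rw [decide_eq_true_eq]
    simp only at e1
    rw [e1]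
    exact h1 _

/-- the greedy maximal independent set of the graph -/
noncomputable def grS : Finset (Fin n) := toFS (greedy n (bdB (gcode G)))

lemma grS_mind : MInd (bd G) (grS G) := (greedy_spec (bdB_gcode G) bd_symm bd_irrefl).1

end graph

end Pool.Agent.CPT.P
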