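import Pool.Agent.CPT.P.Iso
import Pool.Agent.CPT.At

/-!
# The graphs `XG l τ` are structures with places

For `2 ≤ l` the atoms of `XG l τ` have degree at least three, the pairs have degree two, and every
maximal independent set of atoms has exactly one atom at every vertex of the grid; the number of the
pairs which differ is `2 ∑ τ` modulo four.
-/

set_option autoImplicit false

namespace Pool.Agent.CPT.P

open Finset Classical

variable {l : ℕ} {τ : Vx l → ZMod 2}

/-- an edge in every direction at every vertex -/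
lemma edge_at (hl : 2 ≤ l) (u : Vx l) (i : Fin 3) : ∃ e : Ed l, e.1 = i ∧ ie e u := by
  by_cases h : (u i).val + 1 < l
  · exact ⟨(i, u), rfl, h, fun _ _ => rfl, Or.inl rfl⟩
  · have h1 : (u i).val < l := (u i).isLt
    refine ⟨(i, Function.update u i ⟨(u i).val - 1, by omega⟩), rfl, ?_, ?_, ?_⟩
    · simp only [Function.update_self]
      omega
    · intro j hj
      exact (Function.update_of_ne hj _ _).symm
    · right
      simp only [Function.update_self]
      omega

lemma bdry_pi_single (e : Ed l) (c : ZMod 2) {u : Vx l} (h : ie e u) :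
    bdry (Pi.single e c) u = c := by
  unfold bdry
  rw [Finset.sum_pi_single']
  simp [h]

/-- the atoms at the same place -/
lemma exists_nb (hl : 2 ≤ l) {x : At l} (hx : IsAt τ x) :
    ∃ y : Fin 3 → At l, Function.Injective y ∧ ∀ s, IsAt τ (y s) ∧ Bad x (y s) := by
  choose ε he hi using edge_at hl x.v
  have hne : ∀ i j, i ≠ j → ε i ≠ ε j := by
    intro i j hij h
    apply hij
    rw [← he i, ← he j, h]
  have h12 : ∀ s : Fin 3, s ≠ s + 1 ∧ s ≠ s + 2 ∧ s + 1 ≠ s + 2 := by decide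
  set W : Fin 3 → Ed l → ZMod 2 := fun s =>
    x.w + Pi.single (ε (s + 1)) 1 + Pi.single (ε (s + 2)) 1 with hW
  have w0 : ∀ s, W s (ε s) = x.w (ε s) := by
    intro s
    simp only [hW, Pi.add_apply]
    rw [Pi.single_eq_of_ne (hne _ _ (h12 s).1), Pi.single_eq_of_ne (hne _ _ (h12 s).2.1)]
    simp
  have w1 : ∀ s t, t ≠ s → W s (ε t) = x.w (ε t) + 1 := by
    intro s t hts
    have h3 : t = s + 1 ∨ t = s + 2 := by
      revert s t
      decide
    simp only [hW, Pi.add_apply]
    rcases h3 with rfl | rfl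
    · rw [Pi.single_eq_same, Pi.single_eq_of_ne (hne _ _ (h12 s).2.2)]
      simp
    · rw [Pi.single_eq_same, Pi.single_eq_of_ne (hne _ _ (h12 s).2.2.symm)]
      simp
  have h1 : ∀ a : ZMod 2, a ≠ a + 1 := by decide
  refine ⟨fun s => mkA x.v x.a (W s), ?_, ?_⟩
  · intro s t hst
    by_contra hne
    have h2 : W s = W t := congrArg At.w hst
    have h3 := congrFun h2 (ε s)
    rw [w0, w1 t s hne] at h3
    exact h1 _ h3
  · intro s
    refine ⟨⟨hx.1, ?_, ?_⟩, ?_, Or.inl rfl⟩
    · intro e hne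
      simp only [mkA_w, mkA_v] at hne ⊢
      simp only [hW, Pi.add_apply]
      rw [hx.2.1 e hne, Pi.single_eq_of_ne, Pi.single_eq_of_ne]
      · simp
      · rintro rfl
        exact hne (hi _)
      · rintro rfl
        exact hne (hi _)
    · simp only [mkA_w, mkA_v]
      simp only [hW]
      rw [bdry_add, bdry_add, bdry_pi_single _ _ (hi _), bdry_pi_single _ _ (hi _), hx.2.2, add_assoc]
      have : (1 : ZMod 2) + 1 = 0 := by decide
      rw [this, add_zero]
    · intro h
      have h2 : x.w = W s := congrArg At.w h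
      have h3 := congrFun h2 (ε (s + 1))
      rw [w1 s (s + 1) (h12 s).1.symm] at h3
      exact h1 _ h3

/-- atoms have degree at least three -/
lemma dg_inl (hl : 2 ≤ l) {x : At l} (hx : InU τ (Sum.inl x)) :
    3 ≤ dg (XG l τ) ⟨Sum.inl x, hx⟩ := by
  obtain ⟨y, hy, h⟩ := exists_nb hl (τ := τ) (x := x) hx
  unfold dg
  have h1 : (univ : Finset (Fin 3)).card ≤ _ := Finset.card_le_card_of_injOn
    (s := (univ : Finset (Fin 3)))
    (t := univ.filter (fun u => (XG l τ).Adj ⟨Sum.inl x, hx⟩ u))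
    (fun s => (⟨Sum.inl (y s), (h s).1⟩ : {x : Al l // InU τ x})) (by
      intro s _
      simp only [coe_filter, mem_univ, true_and, Set.mem_ofPred_eq]
      exact (h s).2) (by
      intro s _ t _ hst
      apply hy
      have := congrArg Subtype.val hst
      simpa using this)
  simpa using h1

/-- pairs have degree two -/
lemma dg_inr {p : At l × At l} (hp : InU τ (Sum.inr p)) :
    dg (XG l τ) ⟨Sum.inr p, hp⟩ = 2 := by
  unfold dg
  rw [Finset.card_eq_two]
  refine ⟨⟨Sum.inl p.1, hp.1⟩, ⟨Sum.inl p.2, hp.2.1⟩, ?_, ?_⟩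
  · intro h
    have h1 := congrArg Subtype.val h
    simp only [Sum.inl.injEq] at h1
    exact hp.2.2.1 (by rw [h1])
  · ext ⟨u, hu⟩
    simp only [mem_filter, mem_univ, true_and, mem_insert, mem_singleton, Subtype.mk.injEq]
    show adj (Sum.inr p) u ↔ _
    rcases u with u | u
    · show (u = p.1 ∨ u = p.2) ↔ _
      simp
    · show False ↔ _
      simp

lemma bd_iff (hl : 2 ≤ l) (x y : {x : Al l // InU τ x}) :
    bd (XG l τ) x y ↔ ∃ a b, x.1 = Sum.inl a ∧ y.1 = Sum.inl b ∧ Bad a b := by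
  obtain ⟨x, hx⟩ := x
  obtain ⟨y, hy⟩ := y
  unfold bd
  rcases x with x | x
  · rcases y with y | y
    · constructor
      · rintro ⟨-, -, h⟩
        exact ⟨x, y, rfl, rfl, h⟩
      · rintro ⟨a, b, h1, h2, h3⟩
        simp only [Sum.inl.injEq] at h1 h2
        subst h1 h2
        exact ⟨dg_inl hl hx, dg_inl hl hy, h3⟩
    · constructor
      · rintro ⟨-, h, -⟩
        rw [dg_inr] at h
        omega
      · rintro ⟨a, b, h1, h2, h3⟩
        simp at h2
  · constructor
    · rintro ⟨h, -, -⟩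
      rw [dg_inr] at h
      omega
    · rintro ⟨a, b, h1, h2, h3⟩
      simp at h1

lemma df_iff (hl : 2 ≤ l) (x y : {x : Al l // InU τ x}) :
    df (XG l τ) x y ↔ ∃ a b, x.1 = Sum.inl a ∧ y.1 = Sum.inl b ∧ Dif a b := by
  obtain ⟨x, hx⟩ := x
  obtain ⟨y, hy⟩ := y
  unfold df
  rcases x with x | x
  · rcases y with y | y
    · constructor
      · rintro ⟨-, -, hne, ⟨m, hm⟩, h1, h2, h3⟩
        rcases m with m | p
        · have := dg_inl hl hm
          omega
        · refine ⟨x, y, rfl, rfl, ?_⟩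
          have hxy : x ≠ y := fun h => hne (by subst h; rfl)
          have h2' : x = p.1 ∨ x = p.2 := h2
          have h3' : y = p.1 ∨ y = p.2 := h3
          have hD := hm.2.2
          rcases h2' with rfl | rfl <;> rcases h3' with rfl | rfl
          · exact absurd rfl hxy
          · exact hD
          · exact hD.symm
          · exact absurd rfl hxy
      · rintro ⟨a, b, h1, h2, h3⟩
        simp only [Sum.inl.injEq] at h1 h2
        subst h1 h2
        refine ⟨dg_inl hl hx, dg_inl hl hy, ?_, ⟨Sum.inr (x, y), hx, hy, h3⟩, dg_inr _, ?_, ?_⟩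
        · intro h
          have h1 := congrArg Subtype.val h
          simp only [Sum.inl.injEq] at h1
          exact h3.1 (by rw [h1])
        · exact Or.inl rfl
        · exact Or.inr rfl
    · constructor
      · rintro ⟨-, h, -⟩
        rw [dg_inr] at h
        omega
      · rintro ⟨a, b, h1, h2, h3⟩
        simp at h2
  · constructor
    · rintro ⟨h, -, -⟩
      rw [dg_inr] at h
      omega
    · rintro ⟨a, b, h1, h2, h3⟩
      simp at h1

/-- the places -/
def plc : {x : Al l // InU τ x} → Vx l ⊕ {p : At l × At l // InU τ (Sum.inr p)}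
  | ⟨Sum.inl x, _⟩ => Sum.inl x.v
  | ⟨Sum.inr p, hp⟩ => Sum.inr ⟨p, hp⟩

lemma fill_inl (hl : 2 ≤ l) {T : Finset {x : Al l // InU τ x}} (hT : Ind (bd (XG l τ)) T)
    (u : Vx l) (hu : ∀ t ∈ T, plc t ≠ Sum.inl u) :
    ∃ z : At l, IsAt τ z ∧ z.v = u ∧ ∀ b, ∀ hb : InU τ (Sum.inl b), ⟨Sum.inl b, hb⟩ ∈ T →
      ¬ Bad z b := by
  obtain ⟨e0, -, he0⟩ := edge_at hl u 0
  set a : Sq l → Om := fun C =>
    if h : ∃ b : At l, (∃ hb : InU τ (Sum.inl b), ⟨Sum.inl b, hb⟩ ∈ T) ∧ sv C b.v ∧ sv C u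
    then (Classical.choose h).a C else o0 with ha
  refine ⟨mkA u a (Pi.single e0 (τ u)), ⟨?_, ?_, ?_⟩, rfl, ?_⟩
  · intro C hC
    simp only [mkA_a, mkA_v] at hC ⊢
    simp only [ha]
    rw [dif_neg]
    rintro ⟨b, -, -, h⟩
    exact hC h
  · intro e he
    simp only [mkA_w, mkA_v] at he ⊢
    rw [Pi.single_eq_of_ne]
    rintro rfl
    exact he he0
  · simp only [mkA_w, mkA_v]
    exact bdry_pi_single _ _ he0
  · intro b hb hbT hbad
    rcases hbad.2 with h | ⟨C, h1, h2, h3⟩
    · exact hu _ hbT (by rw [show plc ⟨Sum.inl b, hb⟩ = Sum.inl b.v from rfl, ← h]; rfl)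
    · simp only [mkA_v, mkA_a] at h1 h3
      have hex : ∃ b : At l, (∃ hb : InU τ (Sum.inl b), ⟨Sum.inl b, hb⟩ ∈ T) ∧ sv C b.v ∧ sv C u :=
        ⟨b, ⟨hb, hbT⟩, h2, h1⟩
      apply h3
      simp only [ha]
      rw [dif_pos hex]
      obtain ⟨⟨hb', hbT'⟩, h4, h5⟩ := Classical.choose_spec hex
      set b' := Classical.choose hex
      by_contra hne
      refine hT ⟨Sum.inl b', hb'⟩ hbT' ⟨Sum.inl b, hb⟩ hbT ?_
      rw [bd_iff hl]
      refine ⟨b', b, rfl, rfl, ?_, Or.inr ⟨C, h4, h2, hne⟩⟩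
      intro h
      exact hne (by rw [h])

/-! ### Counting -/

lemma ie_unique {e e' : Ed l} {u v : Vx l} (huv : u ≠ v) (h1 : ie e u) (h2 : ie e v)
    (h3 : ie e' u) (h4 : ie e' v) : e = e' := by
  -- the direction is the coordinate in which `u` and `v` differ
  have hd : ∀ {f : Ed l}, ie f u → ie f v → ∀ j, u j ≠ v j → f.1 = j := by
    intro f hu hv j hj
    by_contra hne
    exact hj ((hu.2.1 j (Ne.symm hne)).trans (hv.2.1 j (Ne.symm hne)).symm)
  obtain ⟨j, hj⟩ : ∃ j, u j ≠ v j := by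
    by_contra h
    push Not at h
    exact huv (funext h)
  have e1 := hd h1 h2 j hj
  have e2 := hd h3 h4 j hj
  have hj' : (u j).val ≠ (v j).val := fun h => hj (Fin.ext h)
  obtain ⟨i, b⟩ := e
  obtain ⟨i', b'⟩ := e'
  simp only at e1 e2
  subst e1 e2
  have hb : b = b' := by
    funext m
    by_cases hm : m = i'
    · subst hm
      have a1 := h1.2.2
      have a2 := h2.2.2
      have a3 := h3.2.2
      have a4 := h4.2.2
      simp only at a1 a2 a3 a4
      apply Fin.ext
      omega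
    · exact (h1.2.1 m hm).symm.trans (h3.2.1 m hm)
  rw [hb]

/-- the pairs of ends of an edge at which a function differs -/
noncomputable def prs (f : Ed l → Vx l → ZMod 2) (e : Ed l) : Finset (Vx l × Vx l) :=
  univ.filter (fun q => q.1 ≠ q.2 ∧ ie e q.1 ∧ ie e q.2 ∧ f e q.1 ≠ f e q.2)

lemma card_prs (f : Ed l → Vx l → ZMod 2) (e : Ed l) :
    (prs f e).card = 2 * (∑ u ∈ univ.filter (fun u => ie e u), f e u).val := by
  by_cases h : (e.2 e.1).val + 1 < l
  · have h1 : univ.filter (fun u => ie e u) = {e.2, up e h} := by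
      ext v
      rw [Finset.mem_filter, Finset.mem_insert, Finset.mem_singleton, ie_iff e h]
      simp
    rw [h1, Finset.sum_pair (up_ne e h).symm]
    by_cases hf : f e e.2 = f e (up e h)
    · have h2 : prs f e = ∅ := by
        rw [prs, Finset.filter_eq_empty_iff]
        rintro ⟨u, v⟩ _ ⟨h3, h4, h5, h6⟩
        simp only at h3 h4 h5 h6
        rw [ie_iff e h] at h4 h5
        rcases h4 with rfl | rfl <;> rcases h5 with rfl | rfl
        · exact h3 rfl
        · exact h6 hf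
        · exact h6 hf.symm
        · exact h3 rfl
      rw [h2, hf, CharTwo.add_self_eq_zero]
      rfl
    · have h2 : prs f e = {(e.2, up e h), (up e h, e.2)} := by
        ext ⟨u, v⟩
        simp only [prs, mem_filter, mem_univ, true_and, mem_insert, mem_singleton, Prod.mk.injEq]
        rw [ie_iff e h, ie_iff e h]
        constructor
        · rintro ⟨h3, h4, h5, h6⟩
          rcases h4 with rfl | rfl <;> rcases h5 with rfl | rfl
          · exact absurd rfl h3
          · exact Or.inl ⟨rfl, rfl⟩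
          · exact Or.inr ⟨rfl, rfl⟩
          · exact absurd rfl h3
        · rintro (⟨rfl, rfl⟩ | ⟨rfl, rfl⟩)
          · exact ⟨(up_ne e h).symm, Or.inl rfl, Or.inr rfl, hf⟩
          · exact ⟨up_ne e h, Or.inr rfl, Or.inl rfl, Ne.symm hf⟩
      rw [h2, Finset.card_pair]
      · have h3 : ∀ a b : ZMod 2, a ≠ b → (a + b).val = 1 := by decide
        rw [h3 _ _ hf]
      · intro h3
        simp only [Prod.mk.injEq] at h3
        exact up_ne e h h3.2
  · have h1 : univ.filter (fun u => ie e u) = ∅ := by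
      rw [Finset.filter_eq_empty_iff]
      intro u _ hu
      exact h hu.1
    have h2 : prs f e = ∅ := by
      rw [prs, Finset.filter_eq_empty_iff]
      rintro ⟨u, v⟩ _ ⟨-, h4, -⟩
      exact h h4.1
    rw [h1, h2]
    rfl

lemma val_sum_mod {ι : Type} (s : Finset ι) (g : ι → ZMod 2) :
    (∑ i ∈ s, (g i).val) % 2 = (∑ i ∈ s, g i).val := by
  have h1 : ((∑ i ∈ s, (g i).val : ℕ) : ZMod 2) = ∑ i ∈ s, g i := by
    rw [Nat.cast_sum]
    exact Finset.sum_congr rfl (fun i _ => ZMod.natCast_zmod_val _)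
  rw [← h1, ZMod.val_natCast]

lemma card_dif (f : Ed l → Vx l → ZMod 2) :
    (univ.filter (fun q : Vx l × Vx l => q.1 ≠ q.2 ∧ ∃ e, ie e q.1 ∧ ie e q.2 ∧
      f e q.1 ≠ f e q.2)).card % 4 = 2 * (∑ u, bdry (fun e => f e u) u).val := by
  have h1 : univ.filter (fun q : Vx l × Vx l => q.1 ≠ q.2 ∧ ∃ e, ie e q.1 ∧ ie e q.2 ∧
      f e q.1 ≠ f e q.2) = univ.biUnion (prs f) := by
    ext q
    simp only [prs, mem_filter, mem_univ, true_and, mem_biUnion]
    constructor
    · rintro ⟨h1, e, h2, h3, h4⟩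
      exact ⟨e, h1, h2, h3, h4⟩
    · rintro ⟨e, h1, h2, h3, h4⟩
      exact ⟨h1, e, h2, h3, h4⟩
  rw [h1, Finset.card_biUnion]
  · have h2 : ∑ u, bdry (fun e => f e u) u =
        ∑ e, ∑ u ∈ univ.filter (fun u => ie e u), f e u := by
      simp only [bdry, Finset.sum_filter]
      exact Finset.sum_comm
    rw [h2, Finset.sum_congr rfl (fun e _ => card_prs f e), ← Finset.mul_sum]
    have h3 := val_sum_mod univ (fun e => ∑ u ∈ univ.filter (fun u => ie e u), f e u)
    omega
  · intro e _ e' _ hne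
    rw [Function.onFun, Finset.disjoint_left]
    rintro ⟨u, v⟩ hq hq'
    simp only [prs, mem_filter, mem_univ, true_and] at hq hq'
    exact hne (ie_unique hq.1 hq.2.1 hq.2.2.1 hq'.2.1 hq'.2.2.1)

/-- an independent set with an atom at every vertex -/
lemma cnt_full (hl : 2 ≤ l) {S : Finset {x : Al l // InU τ x}} (hS : Ind (bd (XG l τ)) S)
    (hf : ∀ v, ∃ x ∈ S, plc x = v) : cnt (df (XG l τ)) S % 4 = 2 * (∑ v, τ v).val := by
  have h1 : ∀ v : Vx l, ∃ a : At l, a.v = v ∧ ∃ ha : InU τ (Sum.inl a), ⟨Sum.inl a, ha⟩ ∈ S := by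
    intro v
    obtain ⟨⟨x, hx⟩, hxS, hv⟩ := hf (Sum.inl v)
    rcases x with a | p
    · refine ⟨a, ?_, hx, hxS⟩
      have : (Sum.inl a.v : Vx l ⊕ {p : At l × At l // InU τ (Sum.inr p)}) = Sum.inl v := hv
      exact Sum.inl.inj this
    · have : (Sum.inr ⟨p, hx⟩ : Vx l ⊕ {p : At l × At l // InU τ (Sum.inr p)}) = Sum.inl v := hv
      exact absurd this (by simp)
  choose s hs hI hm using h1
  have huniq : ∀ a : At l, ∀ ha : InU τ (Sum.inl a), ⟨Sum.inl a, ha⟩ ∈ S → a = s a.v := by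
    intro a ha haS
    by_contra hne
    refine hS _ haS _ (hm a.v) ?_
    rw [bd_iff hl]
    exact ⟨a, s a.v, rfl, rfl, hne, Or.inl (hs _).symm⟩
  have hnb : ∀ u v, ¬ Bad (s u) (s v) := by
    intro u v hb
    exact hS _ (hm u) _ (hm v) ((bd_iff hl _ _).2 ⟨s u, s v, rfl, rfl, hb⟩)
  have h2 : cnt (df (XG l τ)) S = (univ.filter (fun q : Vx l × Vx l => q.1 ≠ q.2 ∧
      ∃ e, ie e q.1 ∧ ie e q.2 ∧ (s q.1).w e ≠ (s q.2).w e)).card := by
    unfold cnt
    symm
    refine Finset.card_bij (fun q _ => (⟨Sum.inl (s q.1), hI q.1⟩, ⟨Sum.inl (s q.2), hI q.2⟩))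
      ?_ ?_ ?_
    · rintro ⟨u, v⟩ hq
      simp only [mem_filter, mem_univ, true_and, mem_product] at hq ⊢
      refine ⟨⟨hm u, hm v⟩, (df_iff hl _ _).2 ⟨s u, s v, rfl, rfl, ?_, hnb u v, ?_⟩⟩
      · rw [hs, hs]
        exact hq.1
      · rw [hs, hs]
        exact hq.2
    · rintro ⟨u, v⟩ _ ⟨u', v'⟩ _ h
      simp only [Prod.mk.injEq, Subtype.mk.injEq, Sum.inl.injEq] at h
      rw [← hs u, ← hs v, h.1, h.2, hs, hs]
    · rintro ⟨x, y⟩ hxy
      simp only [mem_filter, mem_product] at hxy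
      obtain ⟨⟨hx, hy⟩, hD⟩ := hxy
      rw [df_iff hl] at hD
      obtain ⟨x, hx'⟩ := x
      obtain ⟨y, hy'⟩ := y
      obtain ⟨a, b, rfl, rfl, h3⟩ := hD
      have ea := huniq a hx' hx
      have eb := huniq b hy' hy
      refine ⟨(a.v, b.v), ?_, ?_⟩
      · simp only [mem_filter, mem_univ, true_and]
        rw [← ea, ← eb]
        exact ⟨h3.1, h3.2.2⟩
      · simp only [← ea, ← eb]
  rw [h2, card_dif (fun e u => (s u).w e)]
  congr 2
  refine Finset.sum_congr rfl (fun v _ => ?_)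
  have h3 := (hI v).2.2
  rw [hs] at h3
  exact h3

/-- the graph `XG l τ` is a structure with places -/
theorem plc_XG (hl : 2 ≤ l) (τ : Vx l → ZMod 2) :
    Plc (bd (XG l τ)) (df (XG l τ)) plc (2 * (∑ v, τ v).val) where
  symB := fun x y h => ⟨h.2.1, h.1, h.2.2.symm⟩
  irrB := fun x h => (XG l τ).loopless.irrefl x h.2.2
  symD := by
    rintro x y ⟨h1, h2, h3, m, h4, h5, h6⟩
    exact ⟨h2, h1, h3.symm, m, h4, h6, h5⟩
  same := by
    rintro ⟨x, hx⟩ ⟨y, hy⟩ h hne
    rcases x with x | p <;> rcases y with y | q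
    · have h1 : (Sum.inl x.v : Vx l ⊕ {p : At l × At l // InU τ (Sum.inr p)}) = Sum.inl y.v := h
      refine (bd_iff hl _ _).2 ⟨x, y, rfl, rfl, ?_, Or.inl (Sum.inl.inj h1)⟩
      rintro rfl
      exact hne rfl
    · have h1 : (Sum.inl x.v : Vx l ⊕ {p : At l × At l // InU τ (Sum.inr p)}) =
        Sum.inr ⟨q, hy⟩ := h
      exact absurd h1 (by simp)
    · have h1 : (Sum.inr ⟨p, hx⟩ : Vx l ⊕ {p : At l × At l // InU τ (Sum.inr p)}) =
        Sum.inl y.v := h
      exact absurd h1 (by simp)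
    · have h1 : (Sum.inr ⟨p, hx⟩ : Vx l ⊕ {p : At l × At l // InU τ (Sum.inr p)}) =
        Sum.inr ⟨q, hy⟩ := h
      have h2 := Sum.inr.inj h1
      simp only [Subtype.mk.injEq] at h2
      subst h2
      exact absurd rfl hne
  fill := by
    intro T hT v hv
    rcases v with u | ⟨p, hp⟩
    · obtain ⟨z, hz, hzu, hzb⟩ := fill_inl hl hT u hv
      refine ⟨⟨Sum.inl z, hz⟩, by rw [← hzu]; rfl, ?_⟩
      intro t ht hb
      rw [bd_iff hl] at hb
      obtain ⟨a, b, h1, h2, h3⟩ := hb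
      simp only [Sum.inl.injEq] at h1
      subst h1
      obtain ⟨t, ht'⟩ := t
      simp only at h2
      subst h2
      exact hzb b ht' ht h3
    · refine ⟨⟨Sum.inr p, hp⟩, rfl, ?_⟩
      intro t _ hb
      rw [bd_iff hl] at hb
      obtain ⟨a, b, h1, -, -⟩ := hb
      simp at h1
  tot := fun S hS hf => cnt_full hl hS hf

end Pool.Agent.CPT.P
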