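import Pool.Agent.CPT.P.Algo

/-!
# The algorithm runs in polynomial time
-/

set_option autoImplicit false

namespace Pool.Agent.CPT.P

open Pool.Agent.PebAlg (side adj deg code)
open Pool.Agent.Lib.PT

section

variable {α : Type} [Enc α]

private theorem pt_side {f : α → List Bool} (hf : PolyTime f) :
    PolyTime (fun a => side (f a)) := Pool.Agent.PebAlg.polyTime_side hf

private theorem pt_adj {f : α → List Bool} {i j : α → ℕ} (hf : PolyTime f) (hi : PolyTime i)
    (hj : PolyTime j) : PolyTime (fun a => adj (f a) (i a) (j a)) :=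
  Pool.Agent.PebAlg.polyTime_adj hf hi hj

private theorem pt_deg {f : α → List Bool} {v : α → ℕ} (hf : PolyTime f) (hv : PolyTime v) :
    PolyTime (fun x => deg (f x) (v x)) := by
  unfold deg
  exact (PolyTime.filter (f := fun (x : α) (u : ℕ) => adj (f x) u (v x)) (pt_side hf).range
    (pt_adj (hf.comp PolyTime.id.fst) PolyTime.id.snd (hv.comp PolyTime.id.fst))).length

theorem pt_bdB {f : α → List Bool} {x y : α → ℕ} (hf : PolyTime f) (hx : PolyTime x)
    (hy : PolyTime y) : PolyTime (fun a => bdB (f a) (x a) (y a)) := by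
  unfold bdB
  exact ((PolyTime.const 3).le (pt_deg hf hx)).and
    (((PolyTime.const 3).le (pt_deg hf hy)).and (pt_adj hf hx hy))

theorem pt_dfB {f : α → List Bool} {x y : α → ℕ} (hf : PolyTime f) (hx : PolyTime x)
    (hy : PolyTime y) : PolyTime (fun a => dfB (f a) (x a) (y a)) := by
  unfold dfB
  have f1 : PolyTime (fun c : α × ℕ => f c.1) := hf.comp PolyTime.id.fst
  have x1 : PolyTime (fun c : α × ℕ => x c.1) := hx.comp PolyTime.id.fst
  have y1 : PolyTime (fun c : α × ℕ => y c.1) := hy.comp PolyTime.id.fst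
  exact ((PolyTime.const 3).le (pt_deg hf hx)).and
    (((PolyTime.const 3).le (pt_deg hf hy)).and ((hx.eqNat hy).not.and
      (PolyTime.any (f := fun (a : α) (m : ℕ) => decide (deg (f a) m = 2) &&
          (adj (f a) m (x a) && adj (f a) m (y a))) (pt_side hf).range
        (((pt_deg f1 PolyTime.id.snd).eqNat (PolyTime.const 2)).and
          ((pt_adj f1 PolyTime.id.snd x1).and (pt_adj f1 PolyTime.id.snd y1))))))

theorem pt_memB {l : α → List ℕ} {x : α → ℕ} (hl : PolyTime l) (hx : PolyTime x) :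
    PolyTime (fun a => memB (l a) (x a)) := by
  unfold memB
  exact PolyTime.any hl (PolyTime.id.snd.eqNat (hx.comp PolyTime.id.fst))

theorem pt_m4 {c : α → ℕ} (hc : PolyTime c) : PolyTime (fun a => m4 (c a)) := by
  unfold m4
  exact hc.sub ((PolyTime.const 4).mul (Pool.Agent.PebAlg.polyTime_div hc (PolyTime.const 4)))

/-- a Boolean relation which depends on a parameter and is computed in polynomial time -/
def PT2 (R : α → ℕ → ℕ → Bool) : Prop := PolyTime (fun q : α × ℕ × ℕ => R q.1 q.2.1 q.2.2)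

theorem PT2.app {R : α → ℕ → ℕ → Bool} (h : PT2 R) {β : Type} [Enc β] {a : β → α} {x y : β → ℕ}
    (ha : PolyTime a) (hx : PolyTime x) (hy : PolyTime y) :
    PolyTime (fun b => R (a b) (x b) (y b)) :=
  PolyTime.comp h (ha.pair (hx.pair hy))

variable {n : α → ℕ} {R Q : α → ℕ → ℕ → Bool}

theorem pt_greedy (hn : PolyTime n) (hR : PT2 R) : PolyTime (fun a => greedy (n a) (R a)) := by
  unfold greedy
  refine PolyTime.foldl_add' (f := fun (a : α) (acc : List ℕ) (x : ℕ) =>
    bif acc.any (R a x) then acc else x :: acc) hn.range (PolyTime.const ([] : List ℕ)) ?_ ?_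
  · refine PolyTime.cond ?_ PolyTime.id.snd.fst (PolyTime.id.snd.snd.cons PolyTime.id.snd.fst)
    exact PolyTime.any (f := fun (q : α × List ℕ × ℕ) (y : ℕ) => R q.1 q.2.2 y) PolyTime.id.snd.fst
      (hR.app PolyTime.id.fst.fst PolyTime.id.fst.snd.snd PolyTime.id.snd)
  · refine ⟨Polynomial.X + 1, fun a x y => ?_⟩
    cases x.any (R a y)
    · simp
      omega
    · simp

theorem pt_cntB (hn : PolyTime n) (hQ : PT2 Q) {l : α → List ℕ} (hl : PolyTime l) :
    PolyTime (fun a => cntB (n a) (Q a) (l a)) := by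
  unfold cntB
  refine (PolyTime.map (f := fun (a : α) (x : ℕ) => ((List.range (n a)).filter
    (fun y => memB (l a) x && (memB (l a) y && Q a x y))).length) hn.range ?_).sum
  refine (PolyTime.filter (f := fun (c : α × ℕ) (y : ℕ) => memB (l c.1) c.2 &&
    (memB (l c.1) y && Q c.1 c.2 y)) (hn.comp PolyTime.id.fst).range ?_).length
  have l2 : PolyTime (fun c : (α × ℕ) × ℕ => l c.1.1) := hl.comp PolyTime.id.fst.fst
  exact (pt_memB l2 PolyTime.id.fst.snd).and ((pt_memB l2 PolyTime.id.snd).and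
    (hQ.app PolyTime.id.fst.fst PolyTime.id.fst.snd PolyTime.id.snd))

theorem pt_indB (hR : PT2 R) {l : α → List ℕ} (hl : PolyTime l) :
    PolyTime (fun a => indB (R a) (l a)) := by
  unfold indB
  refine PolyTime.all (f := fun (a : α) (x : ℕ) => (l a).all (fun y => !(R a x y))) hl ?_
  refine PolyTime.all (f := fun (c : α × ℕ) (y : ℕ) => !(R c.1 c.2 y))
    (hl.comp PolyTime.id.fst) ?_
  exact (hR.app PolyTime.id.fst.fst PolyTime.id.fst.snd PolyTime.id.snd).not

theorem pt_domB (hR : PT2 R) {l : α → List ℕ} {z : α → ℕ} (hl : PolyTime l) (hz : PolyTime z) :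
    PolyTime (fun a => domB (R a) (l a) (z a)) := by
  unfold domB
  refine (pt_memB hl hz).or (PolyTime.any (f := fun (a : α) (y : ℕ) => R a (z a) y) hl ?_)
  exact hR.app PolyTime.id.fst (hz.comp PolyTime.id.fst) PolyTime.id.snd

theorem pt_nrB (hR : PT2 R) (hQ : PT2 Q) {x y : α → ℕ} (hx : PolyTime x) (hy : PolyTime y) :
    PolyTime (fun a => nrB (R a) (Q a) (x a) (y a)) := by
  unfold nrB
  exact (hx.eqNat hy).or ((hR.app PolyTime.id hx hy).or (hQ.app PolyTime.id hx hy))

theorem PT2.fst (hR : PT2 R) {β : Type} [Enc β] : PT2 (fun c : α × β => R c.1) :=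
  hR.app PolyTime.id.fst.fst PolyTime.id.snd.fst PolyTime.id.snd.snd

theorem pt_chkB (hn : PolyTime n) (hR : PT2 R) (hQ : PT2 Q) {C O T : α → List ℕ}
    (hC : PolyTime C) (hO : PolyTime O) (hT : PolyTime T) :
    PolyTime (fun a => chkB (n a) (R a) (Q a) (C a) (O a) (T a)) := by
  unfold chkB
  have hA := hC.append hO
  have hB := hC.append hT
  refine (pt_indB hR hA).not.or ((pt_indB hR hB).not.or (PolyTime.or (PolyTime.not ?_)
    ((pt_m4 (pt_cntB hn hQ hA)).eqNat (pt_m4 (pt_cntB hn hQ hB)))))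
  refine PolyTime.all (f := fun (a : α) (q : ℕ) => (List.range (n a)).all (fun y =>
    (List.range (n a)).all (fun z => !(nrB (R a) (Q a) q y) || (!(nrB (R a) (Q a) y z) ||
      (domB (R a) (C a ++ O a) z && domB (R a) (C a ++ T a) z))))) (hO.append hT) ?_
  refine PolyTime.all (f := fun (c : α × ℕ) (y : ℕ) =>
    (List.range (n c.1)).all (fun z => !(nrB (R c.1) (Q c.1) c.2 y) || (!(nrB (R c.1) (Q c.1) y z) ||
      (domB (R c.1) (C c.1 ++ O c.1) z && domB (R c.1) (C c.1 ++ T c.1) z))))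
      (hn.comp PolyTime.id.fst).range ?_
  refine PolyTime.all (f := fun (c : (α × ℕ) × ℕ) (z : ℕ) =>
    !(nrB (R c.1.1) (Q c.1.1) c.1.2 c.2) || (!(nrB (R c.1.1) (Q c.1.1) c.2 z) ||
      (domB (R c.1.1) (C c.1.1 ++ O c.1.1) z && domB (R c.1.1) (C c.1.1 ++ T c.1.1) z)))
      (hn.comp PolyTime.id.fst.fst).range ?_
  have p3 : PolyTime (fun c : ((α × ℕ) × ℕ) × ℕ => c.1.1.1) := PolyTime.id.fst.fst.fst
  have hR3 : PT2 (fun c : ((α × ℕ) × ℕ) × ℕ => R c.1.1.1) := hR.fst.fst.fst
  have hQ3 : PT2 (fun c : ((α × ℕ) × ℕ) × ℕ => Q c.1.1.1) := hQ.fst.fst.fst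
  exact (pt_nrB hR3 hQ3 PolyTime.id.fst.fst.snd PolyTime.id.fst.snd).not.or
    ((pt_nrB hR3 hQ3 PolyTime.id.fst.snd PolyTime.id.snd).not.or
      ((pt_domB hR3 (hA.comp p3) PolyTime.id.snd).and (pt_domB hR3 (hB.comp p3) PolyTime.id.snd)))

end

theorem pt_allL (k : ℕ) : ∀ {α : Type} [Enc α] {n : α → ℕ} {P : α → List ℕ → Bool},
    PolyTime n → PolyTime (fun q : α × List ℕ => P q.1 q.2) →
    PolyTime (fun a => allL (n a) k (P a)) := by
  induction k with
  | zero =>
    intro α _ n P hn hP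
    have h : PolyTime (fun a : α => (a, ([] : List ℕ))) :=
      PolyTime.id.pair (PolyTime.const ([] : List ℕ))
    exact (PolyTime.comp hP h).congr fun a => rfl
  | succ k ih =>
    intro α _ n P hn hP
    refine (ih hn hP).and ?_
    refine PolyTime.all (f := fun (a : α) (x : ℕ) => allL (n a) k (fun l => P a (x :: l)))
      hn.range ?_
    refine ih (P := fun (c : α × ℕ) (l : List ℕ) => P c.1 (c.2 :: l)) (hn.comp PolyTime.id.fst) ?_
    exact PolyTime.comp hP (PolyTime.id.fst.fst.pair (PolyTime.id.fst.snd.cons PolyTime.id.snd))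

theorem pt_locB {α : Type} [Enc α] {n : α → ℕ} {R Q : α → ℕ → ℕ → Bool} (hn : PolyTime n)
    (hR : PT2 R) (hQ : PT2 Q) (M : ℕ) : PolyTime (fun a => locB (n a) (R a) (Q a) M) := by
  unfold locB
  refine pt_allL M (P := fun (a : α) (C : List ℕ) => allL (n a) M (fun O => allL (n a) M
    (fun T => chkB (n a) (R a) (Q a) C O T))) hn ?_
  refine pt_allL M (P := fun (c : α × List ℕ) (O : List ℕ) => allL (n c.1) M
    (fun T => chkB (n c.1) (R c.1) (Q c.1) c.2 O T)) (hn.comp PolyTime.id.fst) ?_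
  refine pt_allL M (P := fun (c : (α × List ℕ) × List ℕ) (T : List ℕ) =>
    chkB (n c.1.1) (R c.1.1) (Q c.1.1) c.1.2 c.2 T) (hn.comp PolyTime.id.fst.fst) ?_
  exact pt_chkB (hn.comp PolyTime.id.fst.fst.fst) hR.fst.fst.fst hQ.fst.fst.fst
    PolyTime.id.fst.fst.snd PolyTime.id.fst.snd PolyTime.id.snd

theorem pt_degB {α : Type} [Enc α] {n : α → ℕ} {R Q : α → ℕ → ℕ → Bool} (hn : PolyTime n)
    (hR : PT2 R) (hQ : PT2 Q) (D : ℕ) : PolyTime (fun a => degB (n a) (R a) (Q a) D) := by
  unfold degB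
  refine PolyTime.all (f := fun (a : α) (x : ℕ) =>
    decide (((List.range (n a)).filter (nrB (R a) (Q a) x)).length ≤ D)) hn.range ?_
  refine PolyTime.le (PolyTime.filter (f := fun (c : α × ℕ) (y : ℕ) => nrB (R c.1) (Q c.1) c.2 y)
    (hn.comp PolyTime.id.fst).range ?_).length (PolyTime.const D)
  exact pt_nrB hR.fst.fst hQ.fst.fst PolyTime.id.fst.snd PolyTime.id.snd

theorem pt_lqB {α : Type} [Enc α] {n : α → ℕ} {R Q : α → ℕ → ℕ → Bool} (hn : PolyTime n)
    (hR : PT2 R) (hQ : PT2 Q) (D M : ℕ) : PolyTime (fun a => lqB (n a) (R a) (Q a) D M) := by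
  unfold lqB
  exact (pt_degB hn hR hQ D).and ((pt_locB hn hR hQ M).and
    ((pt_m4 (pt_cntB hn hQ (pt_greedy hn hR))).eqNat (PolyTime.const 2)))

theorem pt2_bdB : PT2 bdB := pt_bdB PolyTime.id.fst PolyTime.id.snd.fst PolyTime.id.snd.snd

theorem pt2_dfB : PT2 dfB := pt_dfB PolyTime.id.fst PolyTime.id.snd.fst PolyTime.id.snd.snd

theorem pt_algo (E D M : ℕ) : PolyTime (algo E D M) := by
  unfold algo
  refine (PolyTime.and ?_ (pt_lqB (pt_side PolyTime.id) pt2_bdB pt2_dfB D M)).cons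
    (PolyTime.const [])
  refine PolyTime.all (f := fun (w : List Bool) (v : ℕ) => decide (deg w v ≤ E))
    (pt_side PolyTime.id).range ?_
  exact (pt_deg PolyTime.id.fst PolyTime.id.snd).le (PolyTime.const E)

theorem pt_inva : PolyTime inva := by
  unfold inva
  refine ((pt_m4 (pt_cntB (pt_side PolyTime.id) pt2_dfB
    (pt_greedy (pt_side PolyTime.id) pt2_bdB))).eqNat (PolyTime.const 2)).cons ?_
  refine PolyTime.map (f := fun (_ : List Bool) (_ : ℕ) => true)
    (PolyTime.filter (f := fun (w : List Bool) (x : ℕ) => decide (3 ≤ deg w x))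
      (pt_greedy (pt_side PolyTime.id) pt2_bdB) ?_) (PolyTime.const true)
  exact (PolyTime.const 3).le (pt_deg PolyTime.id.fst PolyTime.id.snd)

end Pool.Agent.CPT.P
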