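import Pool.Agent.CPT.P.Inst
import Pool.Agent.CPT.P.Corr
import Pool.Agent.CPT.P.Time
import Pool.Agent.CPT.Deg
import Pool.Agent.Lib.PolyTime.ToTM2

/-!
# The polynomial-time side

`Lg` is a class of finite graphs, closed under isomorphisms and decided on all graphs by a
polynomial-time Turing machine. It contains the twisted graphs `XG l (tw v0)` and does not contain
the graphs `XG l 0`. The function `inva` is computed in polynomial time and is a complete invariant
of the graphs `XG l τ`.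
-/

set_option autoImplicit false

namespace Pool.Agent.CPT.P

open Finset Classical
open Pool.Agent.PebAlg (side adj deg code side_code adj_code)

/-! ### Degrees -/

lemma deg_of {W : Type} [Fintype W] {G : SimpleGraph W} {E : ℕ} (h : ∀ v, dg G v ≤ E) :
    Deg (bd G) (df G) (1 + E + E * E) := by
  intro x
  have h1 : univ.filter (fun y => Nr (bd G) (df G) x y) ⊆
      ({x} ∪ univ.filter (fun y => G.Adj x y)) ∪
      (univ.filter (fun y => G.Adj x y)).biUnion (fun m => univ.filter (fun y => G.Adj m y)) := by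
    intro y hy
    simp only [mem_filter, mem_univ, true_and] at hy
    simp only [mem_union, mem_singleton, mem_filter, mem_univ, true_and, mem_biUnion]
    rcases hy with h1 | h1 | h1
    · exact Or.inl (Or.inl h1.symm)
    · exact Or.inl (Or.inr h1.2.2)
    · obtain ⟨-, -, -, m, -, h2, h3⟩ := h1
      exact Or.inr ⟨m, h2.symm, h3⟩
  refine (card_le_card h1).trans ((card_union_le _ _).trans (Nat.add_le_add
    ((card_union_le _ _).trans (Nat.add_le_add (by simp) (h x))) ?_))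
  refine (Finset.card_biUnion_le_card_mul _ _ E (fun m _ => h m)).trans ?_
  exact Nat.mul_le_mul_right _ (h x)

theorem XG_deg : ∃ E : ℕ, ∀ (l : ℕ) (τ : Vx l → ZMod 2) (v : {x : Al l // InU τ x}),
    dg (XG l τ) v ≤ E := by
  obtain ⟨D, hD⟩ := XG_bound
  exact ⟨D, fun l τ v => (hD l τ).2 v⟩

/-- the degree bound -/
noncomputable def E0 : ℕ := Classical.choose XG_deg

lemma XG_deg_le (l : ℕ) (τ : Vx l → ZMod 2) (v : {x : Al l // InU τ x}) : dg (XG l τ) v ≤ E0 :=
  Classical.choose_spec XG_deg l τ v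

/-! ### The class -/

/-- the class of graphs -/
noncomputable def Lg (V : Type) (G : SimpleGraph V) : Prop :=
  LQ E0 (1 + E0 + E0 * E0) (bdM (1 + E0 + E0 * E0)) V G

/-- the decision algorithm -/
noncomputable def dec : List Bool → List Bool :=
  algo E0 (1 + E0 + E0 * E0) (bdM (1 + E0 + E0 * E0))

theorem lg_iso' (V W : Type) (G : SimpleGraph V) (H : SimpleGraph W) (h : Lg V G) :
    Nonempty (G ≃g H) → Lg W H := lQ_iso V W G H h

theorem lg_deg {V : Type} {G : SimpleGraph V} (h : Lg V G) (v : V) :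
    (G.neighborSet v).ncard ≤ E0 := by
  obtain ⟨_, h1, -⟩ := h
  refine le_trans (le_of_eq ?_) (h1 v)
  unfold dg
  rw [← Set.ncard_coe_finset]
  congr 1
  ext w
  simp

theorem dec_time : Nonempty (Turing.TM2ComputableInPolyTime (fun w : List Bool => w)
    (fun w : List Bool => w) dec) :=
  Pool.Agent.Lib.PT.ToTM2.polyTime_toTM2 _ (pt_algo _ _ _)

theorem inva_time : Nonempty (Turing.TM2ComputableInPolyTime (fun w : List Bool => w)
    (fun w : List Bool => w) inva) :=
  Pool.Agent.Lib.PT.ToTM2.polyTime_toTM2 _ pt_inva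

theorem dec_iff {n : ℕ} (G : SimpleGraph (Fin n)) : dec (gcode G) = [true] ↔ Lg (Fin n) G :=
  algo_iff G le_rfl

variable {l : ℕ}

theorem lg_XG (hl : 2 ≤ l) (τ : Vx l → ZMod 2) : Lg _ (XG l τ) ↔ ∑ v, τ v = 1 := by
  unfold Lg
  rw [lQ_iff]
  unfold LG
  rw [(plc_XG hl τ).lq_iff (deg_of (XG_deg_le l τ))]
  have h1 : ∀ a : ZMod 2, 2 * a.val = 2 ↔ a = 1 := by decide
  rw [h1]
  exact ⟨fun h => h.2, fun h => ⟨XG_deg_le l τ, h⟩⟩

theorem sum_tw (v0 : Vx l) : ∑ v, tw v0 v = 1 := by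
  unfold tw
  rw [Finset.sum_pi_single']
  simp

theorem lg_tw (hl : 2 ≤ l) (v0 : Vx l) : Lg _ (XG l (tw v0)) := (lg_XG hl _).2 (sum_tw v0)

theorem not_lg_zero (hl : 2 ≤ l) : ¬ Lg _ (XG l 0) := by
  rw [lg_XG hl]
  simp

theorem XG_not_iso (hl : 2 ≤ l) (v0 : Vx l) : IsEmpty (XG l 0 ≃g XG l (tw v0)) :=
  ⟨fun e => not_lg_zero hl (lg_iso' _ _ _ _ (lg_tw hl v0) ⟨e.symm⟩)⟩

/-! ### The complete invariant -/

lemma mind_map {W W' : Type} [Fintype W] [Fintype W'] {G : SimpleGraph W} {H : SimpleGraph W'}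
    (e : G ≃g H) {S : Finset W} (hS : MInd (bd G) S) :
    MInd (bd H) (S.map e.toEquiv.toEmbedding) := by
  refine ⟨(ind_map e.toEquiv (fun x y => bd_iso e x y) S).2 hS.1, fun x => ?_⟩
  have h1 := (dom_map e.toEquiv (fun x y => bd_iso e x y) S (e.symm x)).2 (hS.2 _)
  have h2 : e.toEquiv (e.symm x) = x := e.apply_symm_apply x
  rwa [h2] at h1

/-- a maximal independent set has one atom at every vertex of the grid -/
lemma card_mind (hl : 2 ≤ l) {τ : Vx l → ZMod 2} {S : Finset {x : Al l // InU τ x}}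
    (hS : MInd (bd (XG l τ)) S) : (S.filter (fun x => 3 ≤ dg (XG l τ) x)).card = l ^ 3 := by
  have h1 : l ^ 3 = (univ : Finset (Vx l)).card := by simp
  rw [h1]
  refine Finset.card_bij (fun x _ => Sum.elim (fun a : At l => a.v) (fun p => p.1.v) x.1)
    (fun _ _ => mem_univ _) ?_ ?_
  · rintro ⟨x, hx⟩ hx' ⟨y, hy⟩ hy' h
    rw [mem_filter] at hx' hy'
    rcases x with a | p
    · rcases y with b | q
      · have hv : a.v = b.v := h
        by_contra hne
        refine hS.1 _ hx'.1 _ hy'.1 ((bd_iff hl _ _).2 ⟨a, b, rfl, rfl, ?_, Or.inl hv⟩)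
        rintro rfl
        exact hne rfl
      · have h2 := hy'.2
        rw [dg_inr] at h2
        omega
    · have h2 := hx'.2
      rw [dg_inr] at h2
      omega
  · intro v _
    obtain ⟨⟨x, hx⟩, hxS, hv⟩ := (plc_XG hl τ).full hS (Sum.inl v)
    rcases x with a | p
    · refine ⟨⟨Sum.inl a, hx⟩, mem_filter.2 ⟨hxS, dg_inl hl hx⟩, ?_⟩
      have h2 : (Sum.inl a.v : Vx l ⊕ {p : At l × At l // InU τ (Sum.inr p)}) = Sum.inl v := hv
      exact Sum.inl.inj h2
    · have h2 : (Sum.inr ⟨p, hx⟩ : Vx l ⊕ {p : At l × At l // InU τ (Sum.inr p)}) = Sum.inl v := hv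
      exact absurd h2 (by simp)

theorem inva_eq (hl : 2 ≤ l) {τ : Vx l → ZMod 2} {n : ℕ} {G : SimpleGraph (Fin n)}
    (e : XG l τ ≃g G) :
    inva (gcode G) = decide (∑ v, τ v = 1) :: List.replicate (l ^ 3) true := by
  obtain ⟨hg, hlt, hnd⟩ := greedy_spec (bdB_gcode G) bd_symm bd_irrefl
  set S : Finset (Fin n) := toFS (greedy n (bdB (gcode G))) with hS
  have hS' := mind_map e.symm hg
  unfold inva
  rw [side_gcode, m4_eq, cntB_eq (dfB_gcode G)]
  congr 1
  · have h1 := (plc_XG hl τ).mind hS'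
    rw [cnt_map e.symm.toEquiv (fun x y => df_iso e.symm x y)] at h1
    rw [h1]
    have h2 : ∀ a : ZMod 2, 2 * a.val = 2 ↔ a = 1 := by decide
    rw [decide_eq_decide]
    exact h2 _
  · rw [List.map_const']
    congr 1
    have h3 : ((greedy n (bdB (gcode G))).filter (fun x => decide (3 ≤ deg (gcode G) x))).length =
        (S.filter (fun x => 3 ≤ dg G x)).card := by
      rw [← List.toFinset_card_of_nodup (hnd.filter _)]
      symm
      refine Finset.card_bij (fun x _ => x.val) ?_ ?_ ?_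
      · intro x hx
        rw [mem_filter, hS, mem_toFS] at hx
        rw [List.mem_toFinset, List.mem_filter, decide_eq_true_eq, deg_gcode]
        exact hx
      · intro x _ y _ h
        exact Fin.ext h
      · intro x hx
        rw [List.mem_toFinset, List.mem_filter, decide_eq_true_eq] at hx
        refine ⟨⟨x, hlt x hx.1⟩, ?_, rfl⟩
        rw [mem_filter, hS, mem_toFS]
        refine ⟨hx.1, ?_⟩
        rw [← deg_gcode]
        exact hx.2
    rw [h3, ← card_mind hl hS']
    refine Finset.card_bij (fun x _ => e.symm x) ?_ ?_ ?_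
    · intro x hx
      rw [mem_filter] at hx
      rw [mem_filter, dg_iso e.symm, mem_map_equiv]
      refine ⟨?_, hx.2⟩
      have h5 : e.symm.toEquiv.symm (e.symm x) = x := e.symm.toEquiv.symm_apply_apply x
      rw [h5]
      exact hx.1
    · intro x _ y _ h
      exact e.symm.injective h
    · intro x hx
      rw [mem_filter, mem_map_equiv] at hx
      refine ⟨e x, ?_, by simp⟩
      rw [mem_filter, dg_iso e]
      exact ⟨hx.1, hx.2⟩

/-- the class of the graphs isomorphic to one of the twins -/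
def Cls (V : Type) (G : SimpleGraph V) : Prop :=
  ∃ (l : ℕ) (hl : 2 ≤ l), Nonempty (XG l 0 ≃g G) ∨
    Nonempty (XG l (tw (fun _ => ⟨0, by omega⟩)) ≃g G)

theorem cls_iso (V W : Type) (G : SimpleGraph V) (H : SimpleGraph W) (h : Cls V G) :
    Nonempty (G ≃g H) → Cls W H := by
  rintro ⟨f⟩
  obtain ⟨l, hl, h⟩ := h
  refine ⟨l, hl, ?_⟩
  rcases h with ⟨⟨e⟩⟩ | ⟨⟨e⟩⟩
  · exact Or.inl ⟨e.trans f⟩
  · exact Or.inr ⟨e.trans f⟩

theorem inva_complete (n m : ℕ) (G : SimpleGraph (Fin n)) (H : SimpleGraph (Fin m))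
    (hG : Cls _ G) (hH : Cls _ H) :
    inva (gcode G) = inva (gcode H) ↔ Nonempty (G ≃g H) := by
  constructor
  · intro h
    obtain ⟨l, hl, hG⟩ := hG
    obtain ⟨l', hl', hH⟩ := hH
    have key : ∀ (τ : Vx l → ZMod 2) (τ' : Vx l' → ZMod 2), XG l τ ≃g G → XG l' τ' ≃g H →
        l = l' ∧ (∑ v, τ v = 1 ↔ ∑ v, τ' v = 1) := by
      intro τ τ' e e'
      rw [inva_eq hl e, inva_eq hl' e', List.cons.injEq, decide_eq_decide] at h
      refine ⟨?_, h.1⟩
      have h2 := congrArg List.length h.2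
      simp only [List.length_replicate] at h2
      exact Nat.pow_left_injective (n := 3) (by norm_num) h2
    rcases hG with ⟨⟨e⟩⟩ | ⟨⟨e⟩⟩ <;> rcases hH with ⟨⟨e'⟩⟩ | ⟨⟨e'⟩⟩
    · obtain ⟨rfl, -⟩ := key _ _ e e'
      exact ⟨e.symm.trans e'⟩
    · obtain ⟨rfl, h2⟩ := key _ _ e e'
      rw [sum_tw] at h2
      simp at h2
    · obtain ⟨rfl, h2⟩ := key _ _ e e'
      rw [sum_tw] at h2
      simp at h2
    · obtain ⟨rfl, -⟩ := key _ _ e e'
      exact ⟨e.symm.trans e'⟩
  · rintro ⟨f⟩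
    obtain ⟨l, hl, hG⟩ := hG
    rcases hG with ⟨⟨e⟩⟩ | ⟨⟨e⟩⟩
    · rw [inva_eq hl e, inva_eq hl (e.trans f)]
    · rw [inva_eq hl e, inva_eq hl (e.trans f)]

end Pool.Agent.CPT.P
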