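import Pool.Agent.CPT.P.Places

/-!
# The query on graphs; invariance under isomorphisms
-/

set_option autoImplicit false

namespace Pool.Agent.CPT.P

open Finset Classical

section transport

variable {A B : Type} [Fintype A] [Fintype B] {Bad Dif : A → A → Prop} {Bad' Dif' : B → B → Prop}

lemma ind_map (e : A ≃ B) (hB : ∀ x y, Bad x y ↔ Bad' (e x) (e y)) (S : Finset A) :
    Ind Bad' (S.map e.toEmbedding) ↔ Ind Bad S := by
  constructor
  · intro h x hx y hy hb
    exact h (e x) (by simpa using hx) (e y) (by simpa using hy) ((hB x y).1 hb)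
  · intro h x hx y hy hb
    rw [mem_map_equiv] at hx hy
    refine h _ hx _ hy ((hB _ _).2 ?_)
    simpa using hb

lemma dom_map (e : A ≃ B) (hB : ∀ x y, Bad x y ↔ Bad' (e x) (e y)) (S : Finset A) (x : A) :
    Dom Bad' (S.map e.toEmbedding) (e x) ↔ Dom Bad S x := by
  unfold Dom
  constructor
  · rintro (h | ⟨z, hz, hb⟩)
    · left
      simpa using h
    · right
      rw [mem_map_equiv] at hz
      refine ⟨_, hz, (hB _ _).2 ?_⟩
      simpa using hb
  · rintro (h | ⟨z, hz, hb⟩)
    · left
      simpa using h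
    · right
      exact ⟨e z, by simpa using hz, (hB _ _).1 hb⟩

lemma cnt_map (e : A ≃ B) (hD : ∀ x y, Dif x y ↔ Dif' (e x) (e y)) (S : Finset A) :
    cnt Dif' (S.map e.toEmbedding) = cnt Dif S := by
  unfold cnt
  symm
  refine Finset.card_bij (fun p _ => (e p.1, e p.2)) ?_ ?_ ?_
  · rintro ⟨x, y⟩ hp
    simp only [mem_filter, mem_product] at hp ⊢
    exact ⟨⟨by simpa using hp.1.1, by simpa using hp.1.2⟩, (hD _ _).1 hp.2⟩
  · rintro ⟨x, y⟩ _ ⟨x', y'⟩ _ h
    simp only [Prod.mk.injEq, EmbeddingLike.apply_eq_iff_eq] at h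
    rw [h.1, h.2]
  · rintro ⟨x, y⟩ hp
    simp only [mem_filter, mem_product, mem_map_equiv] at hp
    refine ⟨(e.symm x, e.symm y), ?_, by simp⟩
    simp only [mem_filter, mem_product]
    refine ⟨hp.1, (hD _ _).2 ?_⟩
    simpa using hp.2

lemma lq_of (e : A ≃ B) (hB : ∀ x y, Bad x y ↔ Bad' (e x) (e y))
    (hD : ∀ x y, Dif x y ↔ Dif' (e x) (e y)) {D M : ℕ} (h : Lq Bad' Dif' D M) :
    Lq Bad Dif D M := by
  have hN : ∀ x y, Nr Bad Dif x y ↔ Nr Bad' Dif' (e x) (e y) := by
    intro x y
    unfold Nr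
    rw [hB, hD, e.apply_eq_iff_eq]
  obtain ⟨h1, h2, S, ⟨hS, hS'⟩, h3⟩ := h
  refine ⟨?_, ?_, S.map e.symm.toEmbedding, ⟨?_, ?_⟩, ?_⟩
  · intro x
    refine le_trans ?_ (h1 (e x))
    refine le_of_eq (Finset.card_bij (fun y _ => e y) ?_ ?_ ?_)
    · intro y hy
      simp only [mem_filter, mem_univ, true_and] at hy ⊢
      exact (hN _ _).1 hy
    · intro y _ z _ h
      exact e.injective h
    · intro y hy
      simp only [mem_filter, mem_univ, true_and] at hy
      refine ⟨e.symm y, ?_, by simp⟩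
      simp only [mem_filter, mem_univ, true_and]
      rw [hN]
      simpa using hy
  · intro C O T hC hO hT iO iT hd
    have hd' := h2 (C.map e.toEmbedding) (O.map e.toEmbedding) (T.map e.toEmbedding)
      (by rwa [card_map]) (by rwa [card_map]) (by rwa [card_map])
      (by rw [← map_union]; exact (ind_map e hB _).2 iO)
      (by rw [← map_union]; exact (ind_map e hB _).2 iT)
      (by
        intro q hq y z hqy hyz
        rw [← map_union, mem_map_equiv] at hq
        have := hd (e.symm q) hq (e.symm y) (e.symm z)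
          ((hN _ _).2 (by simpa using hqy)) ((hN _ _).2 (by simpa using hyz))
        rw [← map_union, ← map_union]
        have e1 := dom_map e hB (C ∪ O) (e.symm z)
        have e2 := dom_map e hB (C ∪ T) (e.symm z)
        rw [e.apply_symm_apply] at e1 e2
        exact ⟨e1.2 this.1, e2.2 this.2⟩)
    rw [← map_union, ← map_union, cnt_map e hD, cnt_map e hD] at hd'
    exact hd'
  · refine (ind_map e.symm (fun x y => ?_) S).2 hS
    rw [hB]
    simp
  · intro x
    have e1 := dom_map e.symm (Bad := Bad') (Bad' := Bad) (fun x y => by rw [hB]; simp) S (e x)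
    rw [e.symm_apply_apply] at e1
    exact e1.2 (hS' _)
  · rw [cnt_map e.symm (Dif := Dif') (Dif' := Dif) (fun x y => by rw [hD]; simp) S]
    exact h3

end transport

/-! ### Graphs -/

section graph

variable {W W' : Type} [Fintype W] [Fintype W']

/-- the degree of a vertex -/
noncomputable def dg (G : SimpleGraph W) (v : W) : ℕ := (univ.filter (fun u => G.Adj v u)).card

/-- both vertices have degree at least three and they are adjacent -/
def bd (G : SimpleGraph W) (x y : W) : Prop := 3 ≤ dg G x ∧ 3 ≤ dg G y ∧ G.Adj x y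

/-- different vertices of degree at least three with a common neighbour of degree two -/
def df (G : SimpleGraph W) (x y : W) : Prop :=
  3 ≤ dg G x ∧ 3 ≤ dg G y ∧ x ≠ y ∧ ∃ m, dg G m = 2 ∧ G.Adj m x ∧ G.Adj m y

/-- the query on graphs -/
def LG (D M : ℕ) (G : SimpleGraph W) : Prop := Lq (bd G) (df G) D M

lemma dg_iso {G : SimpleGraph W} {H : SimpleGraph W'} (e : G ≃g H) (v : W) :
    dg H (e v) = dg G v := by
  unfold dg
  symm
  refine Finset.card_bij (fun u _ => e u) ?_ ?_ ?_
  · intro u hu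
    simp only [mem_filter, mem_univ, true_and] at hu ⊢
    exact e.map_adj_iff.2 hu
  · intro u _ u' _ h
    exact e.injective h
  · intro u hu
    simp only [mem_filter, mem_univ, true_and] at hu
    refine ⟨e.symm u, ?_, by simp⟩
    simp only [mem_filter, mem_univ, true_and]
    rw [← e.map_adj_iff]
    simpa using hu

lemma bd_iso {G : SimpleGraph W} {H : SimpleGraph W'} (e : G ≃g H) (x y : W) :
    bd G x y ↔ bd H (e x) (e y) := by
  unfold bd
  rw [dg_iso, dg_iso, e.map_adj_iff]

lemma df_iso {G : SimpleGraph W} {H : SimpleGraph W'} (e : G ≃g H) (x y : W) :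
    df G x y ↔ df H (e x) (e y) := by
  unfold df
  rw [dg_iso, dg_iso]
  have h1 : (∃ m, dg G m = 2 ∧ G.Adj m x ∧ G.Adj m y) ↔
      ∃ m, dg H m = 2 ∧ H.Adj m (e x) ∧ H.Adj m (e y) := by
    constructor
    · rintro ⟨m, h1, h2, h3⟩
      exact ⟨e m, by rwa [dg_iso], e.map_adj_iff.2 h2, e.map_adj_iff.2 h3⟩
    · rintro ⟨m, h1, h2, h3⟩
      refine ⟨e.symm m, ?_, ?_, ?_⟩
      · rw [← dg_iso e]
        simpa using h1
      · rw [← e.map_adj_iff]
        simpa using h2
      · rw [← e.map_adj_iff]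
        simpa using h3
  rw [h1, Ne, Ne, e.injective.eq_iff]

theorem lg_iso {G : SimpleGraph W} {H : SimpleGraph W'} (e : G ≃g H) {D M : ℕ}
    (h : LG D M H) : LG D M G :=
  lq_of e.toEquiv (fun x y => bd_iso e x y) (fun x y => df_iso e x y) h

end graph

/-- the query, for all graphs: `G` is finite, has maximal degree at most `E` and has the property -/
def LQ (E D M : ℕ) (V : Type) (G : SimpleGraph V) : Prop :=
  ∃ _ : Fintype V, (∀ v, dg G v ≤ E) ∧ LG D M G

theorem lQ_iso {E D M : ℕ} (V W : Type) (G : SimpleGraph V) (H : SimpleGraph W)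
    (h : LQ E D M V G) : Nonempty (G ≃g H) → LQ E D M W H := by
  rintro ⟨e⟩
  obtain ⟨i, h0, h⟩ := h
  refine ⟨Fintype.ofEquiv V e.toEquiv, ?_⟩
  let _ := Fintype.ofEquiv V e.toEquiv
  refine ⟨fun v => ?_, lg_iso e.symm h⟩
  rw [← dg_iso e.symm]
  exact h0 _

theorem lQ_iff {E D M : ℕ} {V : Type} [i : Fintype V] (G : SimpleGraph V) :
    LQ E D M V G ↔ (∀ v, dg G v ≤ E) ∧ LG D M G := by
  constructor
  · rintro ⟨j, h⟩
    rwa [Subsingleton.elim j i] at h
  · intro h
    exact ⟨i, h⟩

end Pool.Agent.CPT.P
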