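import Pool.Agent.PebAlg.M08
import Pool.Agent.PebAlg.M13
import Pool.Agent.CPT.P.Iso

/-!
# The algorithm which decides the query
-/

set_option autoImplicit false

namespace Pool.Agent.CPT.P

open Pool.Agent.PebAlg (side adj deg code)
open Pool.Agent.Lib.PT

/-! ### Decoding the relations of the graph -/

/-- the relation `bd` on an adjacency matrix -/
def bdB (w : List Bool) (x y : ℕ) : Bool :=
  decide (3 ≤ deg w x) && (decide (3 ≤ deg w y) && adj w x y)

/-- the relation `df` on an adjacency matrix -/
def dfB (w : List Bool) (x y : ℕ) : Bool :=
  decide (3 ≤ deg w x) && (decide (3 ≤ deg w y) && (!(decide (x = y)) &&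
    (List.range (side w)).any (fun m => decide (deg w m = 2) && (adj w m x && adj w m y))))

/-! ### The algorithm for Boolean relations on `0, ..., n - 1` -/

section alg

variable (n : ℕ) (R Q : ℕ → ℕ → Bool)

/-- the greedy maximal independent set -/
def greedy : List ℕ :=
  (List.range n).foldl (fun acc x => bif acc.any (R x) then acc else x :: acc) []

/-- membership in a list -/
def memB (l : List ℕ) (x : ℕ) : Bool := l.any (fun y => decide (y = x))

/-- the number of pairs in the relation `Q` -/
def cntB (l : List ℕ) : ℕ :=
  ((List.range n).map (fun x =>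
    ((List.range n).filter (fun y => memB l x && (memB l y && Q x y))).length)).sum

/-- independence -/
def indB (l : List ℕ) : Bool := l.all (fun x => l.all (fun y => !(R x y)))

/-- domination -/
def domB (l : List ℕ) (z : ℕ) : Bool := memB l z || l.any (fun y => R z y)

/-- near -/
def nrB (x y : ℕ) : Bool := decide (x = y) || (R x y || Q x y)

/-- the remainder modulo four -/
def m4 (c : ℕ) : ℕ := c - 4 * (c / 4)

/-- all lists of length at most `k` -/
def allL : ℕ → (List ℕ → Bool) → Bool
  | 0, P => P []
  | k + 1, P => allL k P && (List.range n).all (fun x => allL k (fun l => P (x :: l)))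

/-- the condition for three sets -/
def chkB (C O T : List ℕ) : Bool :=
  !(indB R (C ++ O)) || (!(indB R (C ++ T)) ||
    (!((O ++ T).all (fun q => (List.range n).all (fun y => (List.range n).all (fun z =>
      !(nrB R Q q y) || (!(nrB R Q y z) || (domB R (C ++ O) z && domB R (C ++ T) z)))))) ||
      decide (m4 (cntB n Q (C ++ O)) = m4 (cntB n Q (C ++ T)))))

/-- the local condition -/
def locB (M : ℕ) : Bool :=
  allL n M (fun C => allL n M (fun O => allL n M (fun T => chkB n R Q C O T)))

/-- the degree condition -/
def degB (D : ℕ) : Bool :=
  (List.range n).all (fun x => decide (((List.range n).filter (nrB R Q x)).length ≤ D))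

/-- the query -/
def lqB (D M : ℕ) : Bool :=
  degB n R Q D && (locB n R Q M && decide (m4 (cntB n Q (greedy n R)) = 2))

end alg

/-- the decision algorithm -/
def algo (E D M : ℕ) (w : List Bool) : List Bool :=
  [(List.range (side w)).all (fun v => decide (deg w v ≤ E)) &&
    lqB (side w) (bdB w) (dfB w) D M]

/-- the invariant: the parity and the number of atoms in a maximal independent set -/
def inva (w : List Bool) : List Bool :=
  decide (m4 (cntB (side w) (dfB w) (greedy (side w) (bdB w))) = 2) ::
    ((greedy (side w) (bdB w)).filter (fun x => decide (3 ≤ deg w x))).map (fun _ => true)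

end Pool.Agent.CPT.P
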