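import Mathlib

/-!
# The exchange lemma for maximal independent sets

`Bad` and `Dif` are relations on a finite type `A`.  A local condition (`Loc`) ensures that the number
`cnt S` of the pairs in `S` that are in the relation `Dif` is the same modulo four for all maximal
`Bad`-independent sets `S`.
-/

set_option autoImplicit false

namespace Pool.Agent.CPT.P

open Finset Classical

variable {A : Type} [Fintype A] (Bad Dif : A → A → Prop)

/-- independent sets -/
def Ind (S : Finset A) : Prop := ∀ x ∈ S, ∀ y ∈ S, ¬ Bad x y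

/-- `S` dominates `y` -/
def Dom (S : Finset A) (y : A) : Prop := y ∈ S ∨ ∃ z ∈ S, Bad y z

/-- maximal independent sets -/
def MInd (S : Finset A) : Prop := Ind Bad S ∧ ∀ x, Dom Bad S x

/-- number of ordered pairs in the relation `Dif` -/
noncomputable def cnt (S : Finset A) : ℕ := ((S ×ˢ S).filter fun p => Dif p.1 p.2).card

/-- number of the pairs in `S × T` in the relation `Dif` -/
noncomputable def crs (S T : Finset A) : ℕ := ((S ×ˢ T).filter fun p => Dif p.1 p.2).card

/-- equal or in one of the two relations -/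
def Nr (x y : A) : Prop := x = y ∨ Bad x y ∨ Dif x y

/-- all degrees are at most `D` -/
def Deg (D : ℕ) : Prop := ∀ x, (univ.filter (fun y => Nr Bad Dif x y)).card ≤ D

/-- the local condition -/
def Loc (M : ℕ) : Prop := ∀ C O T : Finset A, C.card ≤ M → O.card ≤ M → T.card ≤ M →
  Ind Bad (C ∪ O) → Ind Bad (C ∪ T) →
  (∀ q ∈ O ∪ T, ∀ y z, Nr Bad Dif q y → Nr Bad Dif y z →
    Dom Bad (C ∪ O) z ∧ Dom Bad (C ∪ T) z) →
  cnt Dif (C ∪ O) % 4 = cnt Dif (C ∪ T) % 4

/-- the query -/
def Lq (D M : ℕ) : Prop :=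
  Deg Bad Dif D ∧ Loc Bad Dif M ∧ ∃ S, MInd Bad S ∧ cnt Dif S % 4 = 2

variable {Bad Dif}

lemma Ind.mono {S T : Finset A} (h : Ind Bad T) (hST : S ⊆ T) : Ind Bad S :=
  fun x hx y hy => h x (hST hx) y (hST hy)

lemma cnt_union (hs : ∀ x y, Dif x y → Dif y x) {S T : Finset A} (h : Disjoint S T) :
    cnt Dif (S ∪ T) = cnt Dif S + cnt Dif T + 2 * crs Dif S T := by
  have h1 : crs Dif T S = crs Dif S T := by
    unfold crs
    refine Finset.card_bij (fun p _ => (p.2, p.1)) ?_ ?_ ?_
    · rintro ⟨x, y⟩ hp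
      simp only [mem_filter, mem_product] at hp ⊢
      exact ⟨⟨hp.1.2, hp.1.1⟩, hs _ _ hp.2⟩
    · rintro ⟨x, y⟩ _ ⟨x', y'⟩ _ h
      simp only [Prod.mk.injEq] at h ⊢
      exact ⟨h.2, h.1⟩
    · rintro ⟨x, y⟩ hp
      simp only [mem_filter, mem_product] at hp
      exact ⟨(y, x), by simpa using ⟨⟨hp.1.2, hp.1.1⟩, hs _ _ hp.2⟩, rfl⟩
  have h2 : ((S ∪ T) ×ˢ (S ∪ T)).filter (fun p => Dif p.1 p.2) =
      (((S ×ˢ S).filter (fun p => Dif p.1 p.2)) ∪ ((T ×ˢ T).filter (fun p => Dif p.1 p.2))) ∪
      (((S ×ˢ T).filter (fun p => Dif p.1 p.2)) ∪ ((T ×ˢ S).filter (fun p => Dif p.1 p.2))) := by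
    ext ⟨x, y⟩
    simp only [mem_filter, mem_product, mem_union]
    tauto
  have hd : ∀ x, x ∈ S → x ∉ T := fun x hx hx' => (Finset.disjoint_left.1 h) hx hx'
  unfold cnt
  rw [h2, Finset.card_union_of_disjoint, Finset.card_union_of_disjoint,
    Finset.card_union_of_disjoint]
  · have h3 : ((T ×ˢ S).filter (fun p => Dif p.1 p.2)).card = crs Dif S T := h1
    have h4 : ((S ×ˢ T).filter (fun p => Dif p.1 p.2)).card = crs Dif S T := rfl
    omega
  · rw [Finset.disjoint_left]
    rintro ⟨x, y⟩ hp hq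
    simp only [mem_filter, mem_product] at hp hq
    exact hd x hp.1.1 hq.1.1
  · rw [Finset.disjoint_left]
    rintro ⟨x, y⟩ hp hq
    simp only [mem_filter, mem_product] at hp hq
    exact hd x hp.1.1 hq.1.1
  · rw [Finset.disjoint_left]
    rintro ⟨x, y⟩ hp hq
    simp only [mem_filter, mem_product, mem_union] at hp hq
    rcases hp with hp | hp <;> rcases hq with hq | hq
    · exact hd y hp.1.2 hq.1.2
    · exact hd x hp.1.1 hq.1.1
    · exact hd x hq.1.1 hp.1.1
    · exact hd y hq.1.2 hp.1.2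

/-- every independent set is contained in a maximal one -/
lemma exists_mind (hs : ∀ x y, Bad x y → Bad y x) (hi : ∀ x, ¬ Bad x x) {T : Finset A}
    (hT : Ind Bad T) : ∃ S, T ⊆ S ∧ MInd Bad S := by
  obtain ⟨S, hS, hmax⟩ := (Set.toFinite {S : Finset A | T ⊆ S ∧ Ind Bad S}).exists_maximal
    ⟨T, subset_refl T, hT⟩
  refine ⟨S, hS.1, hS.2, fun x => ?_⟩
  by_contra hx
  unfold Dom at hx
  push Not at hx
  have h1 : Ind Bad (insert x S) := by
    intro y hy z hz
    rw [mem_insert] at hy hz
    rcases hy with rfl | hy <;> rcases hz with rfl | hz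
    · exact hi _
    · exact hx.2 z hz
    · exact fun h => hx.2 y hy (hs _ _ h)
    · exact hS.2 y hy z hz
  have h2 := hmax (y := insert x S) ⟨hS.1.trans (subset_insert _ _), h1⟩ (subset_insert _ _)
  exact hx.1 (h2 (mem_insert_self _ _))

/-- a bound for the size of the local sets -/
def bdM (D : ℕ) : ℕ := (D + (1 + D * D)) * D * D * D + (D + (1 + D * D))

variable (Bad Dif) in
/-- the neighbourhood of a set -/
noncomputable def nb (Q : Finset A) : Finset A :=
  univ.filter fun y => ∃ q ∈ Q, Nr Bad Dif q y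

lemma mem_nb {Q : Finset A} {y : A} : y ∈ nb Bad Dif Q ↔ ∃ q ∈ Q, Nr Bad Dif q y := by
  simp [nb]

lemma sub_nb (Q : Finset A) : Q ⊆ nb Bad Dif Q := fun x hx => mem_nb.2 ⟨x, hx, Or.inl rfl⟩

lemma card_nb {D : ℕ} (hD : Deg Bad Dif D) (Q : Finset A) :
    (nb Bad Dif Q).card ≤ Q.card * D := by
  have h1 : nb Bad Dif Q ⊆ Q.biUnion (fun q => univ.filter (fun y => Nr Bad Dif q y)) := by
    intro y hy
    obtain ⟨q, hq, h⟩ := mem_nb.1 hy
    rw [mem_biUnion]
    exact ⟨q, hq, by simpa using h⟩
  refine (card_le_card h1).trans ?_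
  exact Finset.card_biUnion_le_card_mul _ _ _ (fun q _ => hD q)

/-- the exchange lemma -/
theorem exch {D M : ℕ} (hs : ∀ x y, Bad x y → Bad y x) (hi : ∀ x, ¬ Bad x x)
    (hsD : ∀ x y, Dif x y → Dif y x) (hD : Deg Bad Dif D) (hL : Loc Bad Dif M)
    (hM : bdM D ≤ M) : ∀ (n : ℕ) (S S' : Finset A), MInd Bad S → MInd Bad S' →
      (S' \ S).card = n → cnt Dif S % 4 = cnt Dif S' % 4 := by
  intro n
  induction n using Nat.strong_induction_on with
  | _ n ih =>
    intro S S' hS hS' hn
    by_cases h0 : S' \ S = ∅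
    · have h1 : S' ⊆ S := by
        intro x hx
        by_contra hx'
        have : x ∈ S' \ S := mem_sdiff.2 ⟨hx, hx'⟩
        rw [h0] at this
        exact absurd this (notMem_empty _)
      have h2 : S ⊆ S' := by
        intro x hx
        rcases hS'.2 x with h | ⟨z, hz, hb⟩
        · exact h
        · exact absurd hb (hS.1 x hx z (h1 hz))
      rw [subset_antisymm h1 h2]
    · obtain ⟨x, hx⟩ := Finset.nonempty_of_ne_empty h0
      rw [mem_sdiff] at hx
      set O := S.filter (fun y => Bad x y) with hO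
      have hOx : ∀ y, y ∈ O ↔ y ∈ S ∧ Bad x y := fun y => by rw [hO, mem_filter]
      have hT0 : Ind Bad (insert x (S \ O)) := by
        intro y hy z hz
        rw [mem_insert, mem_sdiff, hOx] at hy hz
        rcases hy with rfl | ⟨hy, hy'⟩ <;> rcases hz with rfl | ⟨hz, hz'⟩
        · exact hi _
        · exact fun h => hz' ⟨hz, h⟩
        · exact fun h => hy' ⟨hy, hs _ _ h⟩
        · exact hS.1 y hy z hz
      obtain ⟨S₁, hsub, hS₁⟩ := exists_mind hs hi hT0
      have hxS₁ : x ∈ S₁ := hsub (mem_insert_self _ _)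
      have hSO : ∀ y ∈ S, y ∉ O → y ∈ S₁ := fun y hy hy' =>
        hsub (mem_insert_of_mem (mem_sdiff.2 ⟨hy, hy'⟩))
      have hOS₁ : ∀ y ∈ O, y ∉ S₁ := fun y hy hy' =>
        hS₁.1 x hxS₁ y hy' ((hOx y).1 hy).2
      set T := S₁ \ S with hT
      set Q := O ∪ T with hQ
      set C := (S ∩ S₁).filter (fun y => y ∈ nb Bad Dif (nb Bad Dif (nb Bad Dif Q))) with hC
      have hCm : ∀ y, y ∈ C ↔ (y ∈ S ∧ y ∈ S₁) ∧ y ∈ nb Bad Dif (nb Bad Dif (nb Bad Dif Q)) :=
        fun y => by rw [hC, mem_filter, mem_inter]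
      have hcO : O.card ≤ D := by
        refine (card_le_card ?_).trans (hD x)
        intro y hy
        simp only [mem_filter, mem_univ, true_and]
        exact Or.inr (Or.inl ((hOx y).1 hy).2)
      have hcT : T.card ≤ 1 + D * D := by
        have h1 : T ⊆ {x} ∪ nb Bad Dif O := by
          intro y hy
          rw [hT, mem_sdiff] at hy
          rw [mem_union, mem_singleton]
          by_cases hyx : y = x
          · exact Or.inl hyx
          · right
            rcases hS.2 y with h | ⟨z, hz, hb⟩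
            · exact absurd h hy.2
            · refine mem_nb.2 ⟨z, ?_, Or.inr (Or.inl (hs _ _ hb))⟩
              by_contra hzO
              exact hS₁.1 y hy.1 z (hSO z hz hzO) hb
        calc T.card ≤ ({x} ∪ nb Bad Dif O).card := card_le_card h1
          _ ≤ ({x} : Finset A).card + (nb Bad Dif O).card := card_union_le _ _
          _ ≤ 1 + O.card * D := Nat.add_le_add (by simp) (card_nb hD O)
          _ ≤ 1 + D * D := by gcongr
      have hcQ : Q.card ≤ D + (1 + D * D) :=
        (card_union_le _ _).trans (Nat.add_le_add hcO hcT)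
      have hcC : C.card ≤ (D + (1 + D * D)) * D * D * D := by
        calc C.card ≤ (nb Bad Dif (nb Bad Dif (nb Bad Dif Q))).card := by
              refine card_le_card ?_
              intro y hy
              exact ((hCm y).1 hy).2
          _ ≤ (nb Bad Dif (nb Bad Dif Q)).card * D := card_nb hD _
          _ ≤ (nb Bad Dif Q).card * D * D := by gcongr; exact card_nb hD _
          _ ≤ Q.card * D * D * D := by gcongr; exact card_nb hD _
          _ ≤ _ := by gcongr
      have hb : bdM D = (D + (1 + D * D)) * D * D * D + (D + (1 + D * D)) := rfl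
      have hCO : C ∪ O ⊆ S := by
        intro y hy
        rcases mem_union.1 hy with h | h
        · exact ((hCm y).1 h).1.1
        · exact ((hOx y).1 h).1
      have hCT : C ∪ T ⊆ S₁ := by
        intro y hy
        rcases mem_union.1 hy with h | h
        · exact ((hCm y).1 h).1.2
        · exact (mem_sdiff.1 h).1
      have hn3 : ∀ q ∈ Q, ∀ y z w, Nr Bad Dif q y → Nr Bad Dif y z → Nr Bad Dif z w →
          w ∈ nb Bad Dif (nb Bad Dif (nb Bad Dif Q)) := by
        intro q hq y z w h1 h2 h3
        exact mem_nb.2 ⟨z, mem_nb.2 ⟨y, mem_nb.2 ⟨q, hq, h1⟩, h2⟩, h3⟩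
      have key := hL C O T (by omega) (by omega) (by omega) (hS.1.mono hCO) (hS₁.1.mono hCT)
        (by
          intro q hq y z hqy hyz
          have m1 : ∀ w, Nr Bad Dif z w → w ∈ S → w ∈ C ∪ O := by
            intro w hzw hw
            rw [mem_union]
            by_cases hwO : w ∈ O
            · exact Or.inr hwO
            · exact Or.inl ((hCm w).2 ⟨⟨hw, hSO w hw hwO⟩, hn3 q hq y z w hqy hyz hzw⟩)
          have m2 : ∀ w, Nr Bad Dif z w → w ∈ S₁ → w ∈ C ∪ T := by
            intro w hzw hw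
            rw [mem_union]
            by_cases hwS : w ∈ S
            · exact Or.inl ((hCm w).2 ⟨⟨hwS, hw⟩, hn3 q hq y z w hqy hyz hzw⟩)
            · exact Or.inr (mem_sdiff.2 ⟨hw, hwS⟩)
          constructor
          · rcases hS.2 z with h | ⟨w, hw, hb⟩
            · exact Or.inl (m1 z (Or.inl rfl) h)
            · exact Or.inr ⟨w, m1 w (Or.inr (Or.inl hb)) hw, hb⟩
          · rcases hS₁.2 z with h | ⟨w, hw, hb⟩
            · exact Or.inl (m2 z (Or.inl rfl) h)
            · exact Or.inr ⟨w, m2 w (Or.inr (Or.inl hb)) hw, hb⟩)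
      set I := S ∩ S₁ with hI
      have eS : S = I ∪ O := by
        ext y
        rw [mem_union, hI, mem_inter]
        constructor
        · intro hy
          by_cases hyO : y ∈ O
          · exact Or.inr hyO
          · exact Or.inl ⟨hy, hSO y hy hyO⟩
        · rintro (h | h)
          · exact h.1
          · exact ((hOx y).1 h).1
      have eS₁ : S₁ = I ∪ T := by
        ext y
        rw [mem_union, hI, mem_inter, hT, mem_sdiff]
        tauto
      have dIO : Disjoint I O := by
        rw [Finset.disjoint_left]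
        intro y hy hyO
        exact hOS₁ y hyO (mem_inter.1 hy).2
      have dIT : Disjoint I T := by
        rw [Finset.disjoint_left]
        intro y hy hyT
        exact (mem_sdiff.1 hyT).2 (mem_inter.1 hy).1
      have hCI : C ⊆ I := filter_subset _ _
      have crI : ∀ R : Finset A, R ⊆ Q → crs Dif I R = crs Dif C R := by
        intro R hR
        unfold crs
        congr 1
        ext ⟨y, z⟩
        simp only [mem_filter, mem_product]
        constructor
        · rintro ⟨⟨h1, h2⟩, h3⟩
          refine ⟨⟨?_, h2⟩, h3⟩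
          refine (hCm y).2 ⟨mem_inter.1 h1, ?_⟩
          exact hn3 z (hR h2) y y y (Or.inr (Or.inr (hsD _ _ h3))) (Or.inl rfl) (Or.inl rfl)
        · rintro ⟨⟨h1, h2⟩, h3⟩
          exact ⟨⟨hCI h1, h2⟩, h3⟩
      have e1 := cnt_union hsD dIO
      have e2 := cnt_union hsD dIT
      have e3 := cnt_union hsD (Finset.disjoint_of_subset_left hCI dIO)
      have e4 := cnt_union hsD (Finset.disjoint_of_subset_left hCI dIT)
      rw [crI O subset_union_left, ← eS] at e1
      rw [crI T subset_union_right, ← eS₁] at e2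
      have e5 : cnt Dif S % 4 = cnt Dif S₁ % 4 := by omega
      rw [e5]
      refine ih _ ?_ S₁ S' hS₁ hS' rfl
      rw [← hn]
      refine card_lt_card ?_
      rw [Finset.ssubset_iff_of_subset]
      · exact ⟨x, mem_sdiff.2 hx, fun h => (mem_sdiff.1 h).2 hxS₁⟩
      · intro y hy
        rw [mem_sdiff] at hy ⊢
        refine ⟨hy.1, fun hyS => hy.2 (hSO y hyS ?_)⟩
        intro hyO
        exact hS'.1 x hx.1 y hy.1 ((hOx y).1 hyO).2

end Pool.Agent.CPT.P
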