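import Pool.Agent.CPT.P.Exch

/-!
# Structures with places satisfy the local condition
-/

set_option autoImplicit false

namespace Pool.Agent.CPT.P

open Finset Classical

variable {A V : Type} [Fintype A]

/-- atoms with places: two atoms at the same place are `Bad`, every independent set can be extended to
a missing place, and every independent set with an atom at every place has the same count -/
structure Plc (Bad Dif : A → A → Prop) (pl : A → V) (c : ℕ) : Prop where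
  symB : ∀ x y, Bad x y → Bad y x
  irrB : ∀ x, ¬ Bad x x
  symD : ∀ x y, Dif x y → Dif y x
  same : ∀ x y, pl x = pl y → x ≠ y → Bad x y
  fill : ∀ T : Finset A, Ind Bad T → ∀ v, (∀ t ∈ T, pl t ≠ v) → ∃ z, pl z = v ∧ ∀ t ∈ T, ¬ Bad z t
  tot : ∀ S : Finset A, Ind Bad S → (∀ v, ∃ x ∈ S, pl x = v) → cnt Dif S % 4 = c

variable {Bad Dif : A → A → Prop} {pl : A → V} {c : ℕ}

lemma Plc.full (h : Plc Bad Dif pl c) {S : Finset A} (hS : MInd Bad S) (v : V) :
    ∃ x ∈ S, pl x = v := by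
  by_contra hv
  push Not at hv
  obtain ⟨z, hz, hb⟩ := h.fill S hS.1 v hv
  rcases hS.2 z with h1 | ⟨w, hw, h1⟩
  · exact hv z h1 hz
  · exact hb w hw h1

theorem Plc.mind (h : Plc Bad Dif pl c) {S : Finset A} (hS : MInd Bad S) : cnt Dif S % 4 = c :=
  h.tot S hS.1 (h.full hS)

theorem Plc.loc (h : Plc Bad Dif pl c) (M : ℕ) : Loc Bad Dif M := by
  intro C O T _ _ _ h1 h2 hd
  obtain ⟨S, hTS, hS⟩ := exists_mind h.symB h.irrB h1
  set T₁ := C ∪ O with hT₁
  set T₂ := C ∪ T with hT₂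
  -- an element of `S` near `O ∪ T` is in `T₁`
  have m1 : ∀ q ∈ O ∪ T, ∀ z ∈ S, Nr Bad Dif q z → z ∈ T₁ := by
    intro q hq z hz hn
    rcases (hd q hq z z hn (Or.inl rfl)).1 with h3 | ⟨w, hw, hb⟩
    · exact h3
    · exact absurd hb (hS.1 z hz w (hTS hw))
  have m2 : ∀ q ∈ T₂, q ∉ T₁ → q ∈ O ∪ T := by
    intro q hq hq'
    rw [hT₂, mem_union] at hq
    rw [hT₁, mem_union] at hq'
    rw [mem_union]
    tauto
  have m3 : ∀ q ∈ T₁, q ∉ T₂ → q ∈ O ∪ T := by
    intro q hq hq'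
    rw [hT₁, mem_union] at hq
    rw [hT₂, mem_union] at hq'
    rw [mem_union]
    tauto
  have hi : Ind Bad ((S \ T₁) ∪ T₂) := by
    have aux : ∀ z ∈ S \ T₁, ∀ q ∈ T₂, ¬ Bad q z := by
      intro z hz q hq hb
      rw [mem_sdiff] at hz
      by_cases hqT : q ∈ T₁
      · exact hS.1 q (hTS hqT) z hz.1 hb
      · exact hz.2 (m1 q (m2 q hq hqT) z hz.1 (Or.inr (Or.inl hb)))
    intro x hx y hy hb
    rw [mem_union] at hx hy
    rcases hx with hx | hx <;> rcases hy with hy | hy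
    · exact hS.1 x (mem_sdiff.1 hx).1 y (mem_sdiff.1 hy).1 hb
    · exact aux x hx y hy (h.symB _ _ hb)
    · exact aux y hy x hx hb
    · exact h2 x hx y hy hb
  have hf : ∀ v, ∃ x ∈ (S \ T₁) ∪ T₂, pl x = v := by
    intro v
    obtain ⟨s, hs, hv⟩ := h.full hS v
    by_cases hs1 : s ∈ T₁
    · by_cases hs2 : s ∈ T₂
      · exact ⟨s, mem_union_right _ hs2, hv⟩
      · by_contra hno
        push Not at hno
        obtain ⟨z, hz, hb⟩ := h.fill T₂ h2 v (fun t ht => hno t (mem_union_right _ ht))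
        have hn : Nr Bad Dif s z := by
          by_cases hsz : s = z
          · exact Or.inl hsz
          · exact Or.inr (Or.inl (h.same s z (hv.trans hz.symm) hsz))
        rcases (hd s (m3 s hs1 hs2) z z hn (Or.inl rfl)).2 with h3 | ⟨w, hw, h3⟩
        · exact hno z (mem_union_right _ h3) hz
        · exact hb w hw h3
    · exact ⟨s, mem_union_left _ (mem_sdiff.2 ⟨hs, hs1⟩), hv⟩
  have c1 := h.mind hS
  have c2 := h.tot _ hi hf
  have d1 : Disjoint (S \ T₁) T₁ := sdiff_disjoint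
  have d2 : Disjoint (S \ T₁) T₂ := by
    rw [Finset.disjoint_left]
    intro z hz hz2
    rw [mem_sdiff] at hz
    exact hz.2 (m1 z (m2 z hz2 hz.2) z hz.1 (Or.inl rfl))
  have e0 : (S \ T₁) ∪ T₁ = S := sdiff_union_of_subset hTS
  have e1 := cnt_union h.symD d1
  have e2 := cnt_union h.symD d2
  rw [e0] at e1
  have e3 : crs Dif (S \ T₁) T₁ = crs Dif (S \ T₁) T₂ := by
    unfold crs
    congr 1
    ext ⟨z, q⟩
    simp only [mem_filter, mem_product]
    constructor
    · rintro ⟨⟨hz, hq⟩, hD⟩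
      refine ⟨⟨hz, ?_⟩, hD⟩
      by_contra hq2
      exact (mem_sdiff.1 hz).2 (m1 q (m3 q hq hq2) z (mem_sdiff.1 hz).1
        (Or.inr (Or.inr (h.symD _ _ hD))))
    · rintro ⟨⟨hz, hq⟩, hD⟩
      refine ⟨⟨hz, ?_⟩, hD⟩
      by_contra hq2
      exact (mem_sdiff.1 hz).2 (m1 q (m2 q hq hq2) z (mem_sdiff.1 hz).1
        (Or.inr (Or.inr (h.symD _ _ hD))))
  omega

/-- the query on a structure with places -/
theorem Plc.lq_iff (h : Plc Bad Dif pl c) {D : ℕ} (hD : Deg Bad Dif D) (M : ℕ) :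
    Lq Bad Dif D M ↔ c = 2 := by
  constructor
  · rintro ⟨-, -, S, hS, h1⟩
    rw [← h.mind hS, h1]
  · intro hc
    obtain ⟨S, -, hS⟩ := exists_mind h.symB h.irrB (T := (∅ : Finset A))
      (fun x hx => absurd hx (notMem_empty x))
    exact ⟨hD, h.loc M, S, hS, by rw [h.mind hS, hc]⟩

end Pool.Agent.CPT.P
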